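import Mathlib

set_option autoImplicit false

namespace Pool.Agent.H866Z.AE

/-- keep the first `n` columns of `a` and continue with `c` if `a` has not ended -/
def glue : ℕ → List ℕ → List ℕ → List ℕ
  | 0, _, c => c
  | _ + 1, [], _ => []
  | n + 1, x :: a, c => x :: glue n a c

theorem glue_drop : ∀ (n : ℕ) (a : List ℕ), glue n a (a.drop n) = a
  | 0, _ => rfl
  | _ + 1, [] => rfl
  | n + 1, x :: a => by simp [glue, glue_drop n a]

theorem glue_of_lt : ∀ (n : ℕ) (a c : List ℕ), a.length < n → glue n a c = a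
  | 0, _, _, h => absurd h (Nat.not_lt_zero _)
  | _ + 1, [], _, _ => rfl
  | n + 1, x :: a, c, h => by
    simp only [glue]
    rw [glue_of_lt n a c (by simpa using h)]

theorem length_glue : ∀ (n : ℕ) (a c : List ℕ), n ≤ a.length → (glue n a c).length = n + c.length
  | 0, _, _, _ => by simp [glue]
  | _ + 1, [], _, h => by simp at h
  | n + 1, x :: a, c, h => by
    simp only [glue, List.length_cons]
    rw [length_glue n a c (by simpa using h)]
    omega

/-- the relation has at most `N` residuals -/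
def Idx {ι : Type} (φ : (ι → List ℕ) → Prop) (N : ℕ) : Prop :=
  ∃ (σ : Type) (_ : Fintype σ) (Ψ : σ → (ι → List ℕ) → Prop), Fintype.card σ ≤ N ∧
    ∀ (n : ℕ) (a : ι → List ℕ), ∃ s, ∀ c, φ (fun i => glue n (a i) (c i)) ↔ Ψ s c

section closure
variable {ι : Type} {φ ψ : (ι → List ℕ) → Prop} {N M : ℕ}

theorem Idx.mono (h : Idx φ N) (hNM : N ≤ M) : Idx φ M := by
  obtain ⟨σ, _, Ψ, h1, h2⟩ := h
  exact ⟨σ, _, Ψ, h1.trans hNM, h2⟩

theorem Idx.not (h : Idx φ N) : Idx (fun e => ¬ φ e) N := by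
  obtain ⟨σ, _, Ψ, h1, h2⟩ := h
  refine ⟨σ, _, fun s c => ¬ Ψ s c, h1, fun n a => ?_⟩
  obtain ⟨s, hs⟩ := h2 n a
  exact ⟨s, fun c => not_congr (hs c)⟩

theorem Idx.and (h : Idx φ N) (h' : Idx ψ M) : Idx (fun e => φ e ∧ ψ e) (N * M) := by
  obtain ⟨σ, _, Ψ, h1, h2⟩ := h
  obtain ⟨σ', _, Ψ', h1', h2'⟩ := h'
  refine ⟨σ × σ', inferInstance, fun s c => Ψ s.1 c ∧ Ψ' s.2 c, ?_, fun n a => ?_⟩
  · rw [Fintype.card_prod]
    exact Nat.mul_le_mul h1 h1'
  · obtain ⟨s, hs⟩ := h2 n a
    obtain ⟨s', hs'⟩ := h2' n a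
    exact ⟨(s, s'), fun c => and_congr (hs c) (hs' c)⟩

theorem Idx.rename {κ : Type} (h : Idx φ N) (f : ι → κ) :
    Idx (fun e : κ → List ℕ => φ fun i => e (f i)) N := by
  obtain ⟨σ, _, Ψ, h1, h2⟩ := h
  refine ⟨σ, _, fun s c => Ψ s fun i => c (f i), h1, fun n a => ?_⟩
  obtain ⟨s, hs⟩ := h2 n fun i => a (f i)
  exact ⟨s, fun c => hs _⟩

theorem Idx.ex [DecidableEq ι] (h : Idx φ N) (j : ι) :
    Idx (fun e => ∃ y, φ (Function.update e j y)) (2 ^ N) := by
  classical
  obtain ⟨σ, _, Ψ, h1, h2⟩ := h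
  have hup : ∀ (n : ℕ) (a c : ι → List ℕ) (b d : List ℕ),
      Function.update (fun i => glue n (a i) (c i)) j (glue n b d)
        = fun i => glue n (Function.update a j b i) (Function.update c j d i) := by
    intro n a c b d
    funext i
    by_cases hij : i = j
    · subst hij; simp
    · simp [hij]
  refine ⟨Set σ, inferInstance, fun S c => ∃ s ∈ S, ∃ d, Ψ s (Function.update c j d), ?_,
    fun n a => ?_⟩
  · rw [Fintype.card_set]
    exact Nat.pow_le_pow_right (by norm_num) h1
  · refine ⟨{s | ∃ b, ∀ c, φ (fun i => glue n (Function.update a j b i) (c i)) ↔ Ψ s c},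
      fun c => ⟨?_, ?_⟩⟩
    · rintro ⟨y, hy⟩
      obtain ⟨s, hs⟩ := h2 n (Function.update a j y)
      refine ⟨s, ⟨y, hs⟩, y.drop n, (hs _).1 ?_⟩
      rw [← hup, glue_drop]
      exact hy
    · rintro ⟨s, ⟨b, hb⟩, d, hd⟩
      refine ⟨glue n b d, ?_⟩
      rw [hup]
      exact (hb _).2 hd

theorem Idx.shorten [Fintype ι] (h : Idx φ N) (L : ℕ) (e : ι → List ℕ) (he : φ e) :
    ∃ e', φ e' ∧ (∀ i, (e i).length ≤ L → e' i = e i) ∧ ∀ i, (e' i).length ≤ L + N + 1 := by
  classical
  obtain ⟨σ, _, Ψ, h1, h2⟩ := h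
  induction hk : ∑ i, (e i).length using Nat.strong_induction_on generalizing e with
  | _ k ih =>
    by_cases hall : ∀ i, (e i).length ≤ L + N + 1
    · exact ⟨e, he, fun _ _ => rfl, hall⟩
    push Not at hall
    obtain ⟨i0, hi0⟩ := hall
    choose s hs using fun m : Fin (N + 1) => h2 (L + 1 + m) e
    obtain ⟨m, m', hlt, hmm⟩ : ∃ m m' : Fin (N + 1), m < m' ∧ s m = s m' := by
      obtain ⟨m, m', hne, hmm⟩ := Fintype.exists_ne_map_eq_of_card_lt s (by simpa using h1)
      rcases lt_or_gt_of_ne hne with h | h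
      · exact ⟨m, m', h, hmm⟩
      · exact ⟨m', m, h, hmm.symm⟩
    have hlt' : (m : ℕ) < m' := hlt
    have hm' := m'.2
    let e1 : ι → List ℕ := fun i => glue (L + 1 + m) (e i) ((e i).drop (L + 1 + m'))
    have he1 : φ e1 := by
      refine (hs m _).2 ?_
      rw [hmm]
      refine (hs m' _).1 ?_
      simpa only [glue_drop] using he
    have hle : ∀ i, (e1 i).length ≤ (e i).length := by
      intro i
      by_cases hi : (e i).length < L + 1 + m
      · simp only [e1, glue_of_lt _ _ _ hi, le_refl]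
      · simp only [e1]
        rw [length_glue _ _ _ (not_lt.1 hi), List.length_drop]
        omega
    have hlt0 : (e1 i0).length < (e i0).length := by
      simp only [e1]
      rw [length_glue _ _ _ (by omega), List.length_drop]
      omega
    obtain ⟨e', h3, h4, h5⟩ := ih _ (by
      rw [← hk]
      exact Finset.sum_lt_sum (fun i _ => hle i) ⟨i0, Finset.mem_univ _, hlt0⟩) e1 he1 rfl
    refine ⟨e', h3, fun i hi => ?_, h5⟩
    have : e1 i = e i := glue_of_lt _ _ _ (by omega)
    rw [h4 i (by rw [this]; exact hi), this]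

end closure

section base
variable {ι : Type}

theorem idx_of_three {r : List ℕ → List ℕ → Prop}
    (h : ∀ n a b, (∀ c d, r (glue n a c) (glue n b d)) ∨ (∀ c d, ¬ r (glue n a c) (glue n b d)) ∨
      ∀ c d, r (glue n a c) (glue n b d) ↔ r c d) (i j : ι) :
    Idx (fun e : ι → List ℕ => r (e i) (e j)) 3 := by
  refine ⟨Option Bool, inferInstance, fun s c => Option.elim s (r (c i) (c j)) fun b => b = true,
    by simp, fun n a => ?_⟩
  rcases h n (a i) (a j) with h | h | h
  · exact ⟨some true, fun c => by simpa using h _ _⟩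
  · exact ⟨some false, fun c => by simpa using h _ _⟩
  · exact ⟨none, fun c => by simpa using h _ _⟩

theorem idx_lt (i j : ι) : Idx (fun e : ι → List ℕ => e i < e j) 3 := by
  refine idx_of_three (r := fun u v => u < v) ?_ i j
  intro n
  induction n with
  | zero => exact fun a b => Or.inr (Or.inr fun c d => Iff.rfl)
  | succ n ih =>
    rintro (_ | ⟨x, a⟩) (_ | ⟨y, b⟩)
    · exact Or.inr (Or.inl fun c d => by simp [glue])
    · exact Or.inl fun c d => by simp [glue]
    · exact Or.inr (Or.inl fun c d => by simp [glue])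
    · simp only [glue, List.cons_lt_cons_iff]
      rcases lt_trichotomy x y with h | h | h
      · exact Or.inl fun c d => Or.inl h
      · subst h
        simpa using ih a b
      · refine Or.inr (Or.inl fun c d => ?_)
        rintro (h' | ⟨h', -⟩) <;> omega

theorem idx_len (i j : ι) : Idx (fun e : ι → List ℕ => (e i).length ≤ (e j).length) 3 := by
  refine idx_of_three (r := fun u v => u.length ≤ v.length) ?_ i j
  intro n
  induction n with
  | zero => exact fun a b => Or.inr (Or.inr fun c d => Iff.rfl)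
  | succ n ih =>
    rintro (_ | ⟨x, a⟩) (_ | ⟨y, b⟩)
    · exact Or.inl fun c d => by simp [glue]
    · exact Or.inl fun c d => by simp [glue]
    · exact Or.inr (Or.inl fun c d => by simp [glue])
    · simpa only [glue, List.length_cons, Nat.add_le_add_iff_right] using ih a b

/-- convolution of two words -/
def conv (u v : List ℕ) : List (Option ℕ × Option ℕ) :=
  List.map (fun i => (u[i]?, v[i]?)) (List.range (max u.length v.length))

theorem conv_nil_nil : conv [] [] = [] := rfl

theorem conv_cons_cons (x y : ℕ) (u v : List ℕ) :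
    conv (x :: u) (y :: v) = (some x, some y) :: conv u v := by
  simp [conv, Nat.succ_max_succ, List.range_succ_eq_map, Function.comp_def]

theorem conv_nil_cons (y : ℕ) (v : List ℕ) : conv [] (y :: v) = (none, some y) :: conv [] v := by
  simp [conv, List.range_succ_eq_map, Function.comp_def]

theorem conv_cons_nil (x : ℕ) (u : List ℕ) : conv (x :: u) [] = (some x, none) :: conv u [] := by
  simp [conv, List.range_succ_eq_map, Function.comp_def]

/-- the automaton given by a list of transitions -/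
def nfa {α : Type} (t : List (ℕ × α × ℕ) × ℕ × List ℕ) : NFA α ℕ :=
  ⟨fun q a => {q' | (q, a, q') ∈ t.1}, {t.2.1}, {q | q ∈ t.2.2}⟩

/-- the states of the automaton -/
def states {α : Type} (t : List (ℕ × α × ℕ) × ℕ × List ℕ) : Finset ℕ :=
  (t.2.1 :: t.1.map fun x => x.2.2).toFinset

theorem card_states {α : Type} (t : List (ℕ × α × ℕ) × ℕ × List ℕ) :
    (states t).card ≤ t.1.length + 1 := by
  simpa [states] using List.toFinset_card_le (t.2.1 :: t.1.map fun x => x.2.2)

theorem stepSet_subset {α : Type} (t : List (ℕ × α × ℕ) × ℕ × List ℕ) (S : Set ℕ) (a : α) :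
    (nfa t).stepSet S a ⊆ states t := by
  intro q hq
  obtain ⟨p, -, hp⟩ := NFA.mem_stepSet.1 hq
  simp only [states, List.coe_toFinset, List.mem_cons, List.mem_map, Set.mem_ofPred_eq]
  exact Or.inr ⟨_, hp, rfl⟩

theorem start_subset {α : Type} (t : List (ℕ × α × ℕ) × ℕ × List ℕ) :
    (nfa t).start ⊆ states t := by
  intro q hq
  have : q = t.2.1 := hq
  simp [states, this]

theorem evalFrom_glue (t : List (ℕ × ℕ × ℕ) × ℕ × List ℕ) (n : ℕ) : ∀ (a : List ℕ) (S : Set ℕ),
    S ⊆ states t → ∃ (f : Bool) (S' : Set ℕ), S' ⊆ states t ∧ ∀ c,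
      (nfa t).evalFrom S (glue n a c) = (nfa t).evalFrom S' (if f then [] else c) := by
  induction n with
  | zero => exact fun a S hS => ⟨false, S, hS, fun c => rfl⟩
  | succ n ih =>
    rintro (_ | ⟨x, a⟩) S hS
    · exact ⟨true, S, hS, fun c => rfl⟩
    · obtain ⟨f, S', h1, h2⟩ := ih a _ (stepSet_subset t S x)
      exact ⟨f, S', h1, fun c => by rw [← h2]; rfl⟩

theorem evalFrom_glue_left (t : List (ℕ × (Option ℕ × Option ℕ) × ℕ) × ℕ × List ℕ) (n : ℕ) :
    ∀ (a : List ℕ) (S : Set ℕ), S ⊆ states t → ∃ (f : Bool) (S' : Set ℕ), S' ⊆ states t ∧ ∀ c,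
      (nfa t).evalFrom S (conv (glue n a c) []) =
        (nfa t).evalFrom S' (conv (if f then [] else c) []) := by
  induction n with
  | zero => exact fun a S hS => ⟨false, S, hS, fun c => rfl⟩
  | succ n ih =>
    rintro (_ | ⟨x, a⟩) S hS
    · exact ⟨true, S, hS, fun c => rfl⟩
    · obtain ⟨f, S', h1, h2⟩ := ih a _ (stepSet_subset t S (some x, none))
      exact ⟨f, S', h1, fun c => by rw [← h2, glue, conv_cons_nil]; rfl⟩

theorem evalFrom_glue_right (t : List (ℕ × (Option ℕ × Option ℕ) × ℕ) × ℕ × List ℕ) (n : ℕ) :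
    ∀ (a : List ℕ) (S : Set ℕ), S ⊆ states t → ∃ (f : Bool) (S' : Set ℕ), S' ⊆ states t ∧ ∀ c,
      (nfa t).evalFrom S (conv [] (glue n a c)) =
        (nfa t).evalFrom S' (conv [] (if f then [] else c)) := by
  induction n with
  | zero => exact fun a S hS => ⟨false, S, hS, fun c => rfl⟩
  | succ n ih =>
    rintro (_ | ⟨x, a⟩) S hS
    · exact ⟨true, S, hS, fun c => rfl⟩
    · obtain ⟨f, S', h1, h2⟩ := ih a _ (stepSet_subset t S (none, some x))
      exact ⟨f, S', h1, fun c => by rw [← h2, glue, conv_nil_cons]; rfl⟩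

theorem evalFrom_glue_two (t : List (ℕ × (Option ℕ × Option ℕ) × ℕ) × ℕ × List ℕ) (n : ℕ) :
    ∀ (a b : List ℕ) (S : Set ℕ), S ⊆ states t → ∃ (f g : Bool) (S' : Set ℕ), S' ⊆ states t ∧
      ∀ c d, (nfa t).evalFrom S (conv (glue n a c) (glue n b d)) =
        (nfa t).evalFrom S' (conv (if f then [] else c) (if g then [] else d)) := by
  induction n with
  | zero => exact fun a b S hS => ⟨false, false, S, hS, fun c d => rfl⟩
  | succ n ih =>
    rintro (_ | ⟨x, a⟩) (_ | ⟨y, b⟩) S hS
    · exact ⟨true, true, S, hS, fun c d => rfl⟩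
    · obtain ⟨g, S', h1, h2⟩ := evalFrom_glue_right t (n + 1) (y :: b) S hS
      exact ⟨true, g, S', h1, fun c d => h2 d⟩
    · obtain ⟨f, S', h1, h2⟩ := evalFrom_glue_left t (n + 1) (x :: a) S hS
      exact ⟨f, true, S', h1, fun c d => h2 c⟩
    · obtain ⟨f, g, S', h1, h2⟩ := ih a b _ (stepSet_subset t S (some x, some y))
      exact ⟨f, g, S', h1, fun c d => by rw [← h2, glue, glue, conv_cons_cons]; rfl⟩

theorem idx_dom (t : List (ℕ × ℕ × ℕ) × ℕ × List ℕ) (i : ι) :
    Idx (fun e : ι → List ℕ => e i ∈ (nfa t).accepts) (2 * 2 ^ (t.1.length + 1)) := by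
  classical
  refine ⟨Bool × Set (states t), inferInstance, fun s c => ∃ q ∈ (nfa t).accept,
    q ∈ (nfa t).evalFrom (Subtype.val '' s.2) (if s.1 then [] else c i), ?_, fun n a => ?_⟩
  · rw [Fintype.card_prod, Fintype.card_set, Fintype.card_bool, Fintype.card_coe]
    exact Nat.mul_le_mul_left _ (Nat.pow_le_pow_right (by norm_num) (card_states t))
  · obtain ⟨f, S', h1, h2⟩ := evalFrom_glue t n (a i) _ (start_subset t)
    refine ⟨(f, Subtype.val ⁻¹' S'), fun c => ?_⟩
    have : Subtype.val '' (Subtype.val ⁻¹' S' : Set (states t)) = S' := by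
      rw [Set.image_preimage_eq_inter_range, Subtype.range_coe_subtype]
      exact Set.inter_eq_left.2 h1
    simp only [this, ← h2]
    exact NFA.mem_accepts

theorem idx_rel (t : List (ℕ × (Option ℕ × Option ℕ) × ℕ) × ℕ × List ℕ) (i j : ι) :
    Idx (fun e : ι → List ℕ => conv (e i) (e j) ∈ (nfa t).accepts)
      (4 * 2 ^ (t.1.length + 1)) := by
  classical
  refine ⟨(Bool × Bool) × Set (states t), inferInstance, fun s c => ∃ q ∈ (nfa t).accept,
    q ∈ (nfa t).evalFrom (Subtype.val '' s.2)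
      (conv (if s.1.1 then [] else c i) (if s.1.2 then [] else c j)), ?_, fun n a => ?_⟩
  · rw [Fintype.card_prod, Fintype.card_prod, Fintype.card_set, Fintype.card_bool,
      Fintype.card_coe]
    exact Nat.mul_le_mul_left _ (Nat.pow_le_pow_right (by norm_num) (card_states t))
  · obtain ⟨f, g, S', h1, h2⟩ := evalFrom_glue_two t n (a i) (a j) _ (start_subset t)
    refine ⟨((f, g), Subtype.val ⁻¹' S'), fun c => ?_⟩
    have : Subtype.val '' (Subtype.val ⁻¹' S' : Set (states t)) = S' := by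
      rw [Set.image_preimage_eq_inter_range, Subtype.range_coe_subtype]
      exact Set.inter_eq_left.2 h1
    simp only [this, ← h2]
    exact NFA.mem_accepts

end base

/-- tower of exponentials -/
def tw (K j : ℕ) : ℕ := (fun x => 2 ^ x)^[j] K

theorem tw_succ (K j : ℕ) : tw K (j + 1) = 2 ^ tw K j := by
  unfold tw
  rw [Function.iterate_succ_apply']

theorem tw_mono (K : ℕ) : Monotone (tw K) :=
  monotone_nat_of_le_succ fun j => by rw [tw_succ]; exact Nat.lt_two_pow_self.le

theorem sq_le_two_pow {n : ℕ} (h : 4 ≤ n) : n * n ≤ 2 ^ n := by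
  induction n, h using Nat.le_induction with
  | base => norm_num
  | succ n hn ih => rw [pow_succ]; nlinarith

section level
variable {ι : Type} {φ ψ : (ι → List ℕ) → Prop} {K j j' : ℕ}

theorem Idx.and_tw (hK : 4 ≤ K) (h : Idx φ (tw K j)) (h' : Idx ψ (tw K j')) :
    Idx (fun e => φ e ∧ ψ e) (tw K (j + j' + 1)) := by
  refine (h.and h').mono ?_
  rw [tw_succ]
  have h1 : tw K j ≤ tw K (j + j') := tw_mono K (by omega)
  have h2 : tw K j' ≤ tw K (j + j') := tw_mono K (by omega)
  have h3 : 4 ≤ tw K (j + j') := hK.trans (tw_mono K (Nat.zero_le _))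
  exact (Nat.mul_le_mul h1 h2).trans (sq_le_two_pow h3)

theorem Idx.ex_tw [DecidableEq ι] (h : Idx φ (tw K j)) (i : ι) :
    Idx (fun e => ∃ y, φ (Function.update e i y)) (tw K (j + 1)) := by
  rw [tw_succ]
  exact h.ex i

theorem Idx.mono_tw (h : Idx φ (tw K j)) (hj : j ≤ j') : Idx φ (tw K j') :=
  h.mono (tw_mono K hj)

theorem Idx.congr {N : ℕ} (h : Idx φ N) (e : ∀ x, φ x ↔ ψ x) : Idx ψ N := by
  have : φ = ψ := funext fun x => propext (e x)
  rwa [← this]

end level

end Pool.Agent.H866Z.AE
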