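import Mathlib
import Pool.Agent.H866Z.AE.Idx

set_option autoImplicit false

open Set

namespace Pool.Agent.H866Z.AE

/-- regular predicates on words -/
def Reg {α : Type} (p : List α → Prop) : Prop :=
  ∃ (σ : Type) (_ : Fintype σ) (δ : σ → α → σ) (q : σ) (acc : σ → Prop),
    ∀ w, p w ↔ acc (w.foldl δ q)

section reg
variable {α β : Type} {p q : List α → Prop}

theorem foldl_prod {σ τ : Type} (δ : σ → α → σ) (ε : τ → α → τ) : ∀ (w : List α) (s : σ) (t : τ),
    w.foldl (fun x a => (δ x.1 a, ε x.2 a)) (s, t) = (w.foldl δ s, w.foldl ε t)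
  | [], _, _ => rfl
  | a :: w, s, t => foldl_prod δ ε w (δ s a) (ε t a)

theorem Reg.bin (f : Prop → Prop → Prop) (hp : Reg p) (hq : Reg q) :
    Reg fun w => f (p w) (q w) := by
  obtain ⟨σ, _, δ, s, a, h⟩ := hp
  obtain ⟨τ, _, ε, t, b, k⟩ := hq
  refine ⟨σ × τ, inferInstance, fun x c => (δ x.1 c, ε x.2 c), (s, t),
    fun x => f (a x.1) (b x.2), fun w => ?_⟩
  beta_reduce
  rw [foldl_prod, propext (h w), propext (k w)]

theorem Reg.and (hp : Reg p) (hq : Reg q) : Reg fun w => p w ∧ q w := hp.bin And hq

theorem Reg.or (hp : Reg p) (hq : Reg q) : Reg fun w => p w ∨ q w := hp.bin Or hq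

theorem Reg.comap (hp : Reg p) (f : β → α) : Reg fun w : List β => p (w.map f) := by
  obtain ⟨σ, _, δ, s, a, h⟩ := hp
  exact ⟨σ, inferInstance, fun x c => δ x (f c), s, a, fun w => by beta_reduce; rw [h, List.foldl_map]⟩

theorem reg_all (r : α → Prop) : Reg fun w : List α => ∀ a ∈ w, r a := by
  classical
  refine ⟨Bool, inferInstance, fun s a => s && decide (r a), true, fun s => s = true, fun w => ?_⟩
  have : ∀ (w : List α) (s : Bool), w.foldl (fun s a => s && decide (r a)) s = true ↔
      s = true ∧ ∀ a ∈ w, r a := by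
    intro w
    induction w with
    | nil => simp
    | cons a w ih => intro s; simp [ih, and_assoc]
  simp [this]

theorem reg_head (r : α → Prop) : Reg fun w : List α => ∃ a, w.head? = some a ∧ r a := by
  classical
  refine ⟨Option Bool, inferInstance, fun s a => some (s.getD (decide (r a))), none,
    fun s => s = some true, fun w => ?_⟩
  have : ∀ (w : List α) (b : Bool),
      w.foldl (fun (s : Option Bool) a => some (s.getD (decide (r a)))) (some b) = some b := by
    intro w b
    induction w with
    | nil => rfl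
    | cons a w ih => simpa using ih
  cases w with
  | nil => simp
  | cons a w => simp [this]

theorem exists_code [Fintype α] (en : α → β) (hp : Reg p) :
    ∃ t : List (ℕ × β × ℕ) × ℕ × List ℕ, t.1.Nodup ∧ t.2.2.Nodup ∧
      ∀ w, w ∈ (nfa t).accepts ↔ ∃ c, p c ∧ w = c.map en := by
  classical
  obtain ⟨σ, _, δ, s, acc, h⟩ := hp
  let cs : σ → ℕ := fun x => (Fintype.equivFin σ x : ℕ)
  have hcs : Function.Injective cs := fun x y e => (Fintype.equivFin σ).injective (Fin.ext e)
  let t : List (ℕ × β × ℕ) × ℕ × List ℕ :=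
    ((Finset.univ.image fun x : σ × α => (cs x.1, en x.2, cs (δ x.1 x.2))).toList, cs s,
      ((Finset.univ.filter acc).image cs).toList)
  have key : ∀ (w : List β) (x : σ) (r : ℕ), r ∈ (nfa t).evalFrom {cs x} w ↔
      ∃ c : List α, w = c.map en ∧ r = cs (c.foldl δ x) := by
    intro w
    induction w with
    | nil =>
      intro x r
      simp
    | cons b w ih =>
      intro x r
      rw [NFA.evalFrom_cons, NFA.stepSet_singleton, NFA.mem_evalFrom_iff_exists]
      constructor
      · rintro ⟨y, hy, hr⟩
        have : ∃ a, en a = b ∧ cs (δ x a) = y := by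
          simpa [nfa, t, hcs.eq_iff] using hy
        obtain ⟨a, rfl, rfl⟩ := this
        obtain ⟨c, rfl, rfl⟩ := (ih _ _).1 hr
        exact ⟨a :: c, rfl, rfl⟩
      · rintro ⟨c, hc, rfl⟩
        cases c with
        | nil => simp at hc
        | cons a c =>
          simp only [List.map_cons, List.cons.injEq] at hc
          obtain ⟨rfl, rfl⟩ := hc
          refine ⟨cs (δ x a), ?_, (ih _ _).2 ⟨c, rfl, rfl⟩⟩
          simp only [nfa, t, Finset.mem_toList, Finset.mem_image, Finset.mem_univ, true_and,
            mem_ofPred_eq]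
          exact ⟨(x, a), rfl⟩
  refine ⟨t, Finset.nodup_toList _, Finset.nodup_toList _, fun w => ?_⟩
  rw [NFA.mem_accepts]
  constructor
  · rintro ⟨r, hr, hw⟩
    obtain ⟨c, rfl, rfl⟩ := (key w s r).1 hw
    refine ⟨c, (h c).2 ?_, rfl⟩
    simpa [nfa, t, hcs.eq_iff] using hr
  · rintro ⟨c, hc, rfl⟩
    refine ⟨_, ?_, (key _ s _).2 ⟨c, rfl, rfl⟩⟩
    simpa [nfa, t, hcs.eq_iff] using (h c).1 hc

end reg

/-- value of a binary word, least significant bit first -/
def val : List Bool → ℕ
  | [] => 0
  | b :: l => b.toNat + 2 * val l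

theorem testBit_val : ∀ (l : List Bool) (i : ℕ), (val l).testBit i = l.getD i false
  | [], i => by simp [val]
  | b :: l, 0 => by cases b <;> simp [val, Nat.testBit_zero, Nat.add_mul_mod_self_left]
  | b :: l, i + 1 => by
    rw [Nat.testBit_succ, val]
    have : (b.toNat + 2 * val l) / 2 = val l := by cases b <;> simp <;> omega
    rw [this, testBit_val l i]
    simp

theorem val_lt : ∀ l : List Bool, val l < 2 ^ l.length
  | [] => by simp [val]
  | b :: l => by
    have := val_lt l
    cases b <;> simp [val, pow_succ] <;> omega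

theorem val_map_testBit {m N : ℕ} (h : m < 2 ^ N) : val ((List.range N).map m.testBit) = m := by
  apply Nat.eq_of_testBit_eq
  intro i
  rw [testBit_val]
  by_cases hi : i < N
  · simp [List.getD, hi]
  · rw [Nat.testBit_lt_two_pow (lt_of_lt_of_le h (Nat.pow_le_pow_right (by norm_num) (by omega)))]
    simp [List.getD, hi]

theorem val_inj {l l' : List Bool} (h : l.length = l'.length) (e : val l = val l') : l = l' := by
  refine List.ext_getElem h fun i h1 h2 => ?_
  have := testBit_val l i
  rw [e, testBit_val] at this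
  simpa [List.getD, h1, h2] using this.symm

theorem val_append_false (l : List Bool) (k : ℕ) : val (l ++ List.replicate k false) = val l := by
  apply Nat.eq_of_testBit_eq
  intro i
  rw [testBit_val, testBit_val]
  by_cases hi : i < l.length
  · simp [List.getD, hi, List.getElem?_append_left]
  · simp only [List.getD, List.getElem?_append_right (not_lt.1 hi), List.getElem?_replicate,
      List.getElem?_eq_none (not_lt.1 hi)]
    split_ifs <;> rfl

section count
variable {Γ : Type}

/-- `L` counts `F` -/
def Counts {Δ : Type} (L : List (Γ × Δ) → Prop) (F : List Γ → ℕ) : Prop :=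
  ∀ w, w ≠ [] → {u | u.map Prod.fst = w ∧ L u}.ncard = F w

/-- functions counted by a finite automaton -/
def RC (F : List Γ → ℕ) : Prop :=
  ∃ (Δ : Type) (_ : Fintype Δ) (_ : Inhabited Δ) (L : List (Γ × Δ) → Prop), Reg L ∧ Counts L F

theorem list_prod_ext {A B : Type} {u v : List (A × B)} (h1 : u.map Prod.fst = v.map Prod.fst)
    (h2 : u.map Prod.snd = v.map Prod.snd) : u = v :=
  (List.zip_of_prod h1 h2).trans (List.zip_of_prod rfl rfl).symm

theorem finite_fiber {Δ : Type} [Fintype Δ] (w : List Γ) (L : List (Γ × Δ) → Prop) :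
    {u | u.map Prod.fst = w ∧ L u}.Finite := by
  refine ((List.finite_length_eq Δ w.length).image fun r => w.zip r).subset fun u hu => ?_
  refine ⟨u.map Prod.snd, ?_, (List.zip_of_prod hu.1 rfl).symm⟩
  simp [← hu.1]

theorem Counts.mul {Δ Δ' : Type} {L : List (Γ × Δ) → Prop} {L' : List (Γ × Δ') → Prop}
    {F F' : List Γ → ℕ} (h : Counts L F) (h' : Counts L' F') :
    Counts (fun u : List (Γ × (Δ × Δ')) => L (u.map fun a => (a.1, a.2.1)) ∧
      L' (u.map fun a => (a.1, a.2.2))) fun w => F w * F' w := by
  intro w hw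
  beta_reduce
  rw [← h w hw, ← h' w hw, ← Set.ncard_prod]
  refine Set.ncard_congr (fun u _ => (u.map fun a => (a.1, a.2.1), u.map fun a => (a.1, a.2.2)))
    ?_ ?_ ?_
  · rintro u ⟨h1, h2, h3⟩
    exact ⟨⟨by simpa [Function.comp_def] using h1, h2⟩, ⟨by simpa [Function.comp_def] using h1, h3⟩⟩
  · rintro u v ⟨h1, -⟩ ⟨h2, -⟩ e
    rw [Prod.mk.injEq] at e
    refine list_prod_ext (h1.trans h2.symm) (list_prod_ext ?_ ?_)
    · simpa [Function.comp_def] using congrArg (List.map Prod.snd) e.1
    · simpa [Function.comp_def] using congrArg (List.map Prod.snd) e.2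
  · rintro ⟨u1, u2⟩ ⟨⟨h1, h2⟩, ⟨h3, h4⟩⟩
    simp only at h1 h2 h3 h4
    have l1 : u1.length = w.length := by simp [← h1]
    have l2 : u2.length = w.length := by simp [← h3]
    let u : List (Γ × (Δ × Δ')) := w.zip ((u1.map Prod.snd).zip (u2.map Prod.snd))
    have a0 : u.map Prod.fst = w := List.map_fst_zip (by simp [l1, l2])
    have a1 : u.map Prod.snd = (u1.map Prod.snd).zip (u2.map Prod.snd) :=
      List.map_snd_zip (by simp [l1, l2])
    have e1 : (u.map fun a => (a.1, a.2.1)) = u1 := by
      refine list_prod_ext (by simpa [Function.comp_def, h1] using a0) ?_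
      have := congrArg (List.map Prod.fst) a1
      rw [List.map_fst_zip (by simp [l1, l2])] at this
      simpa [Function.comp_def] using this
    have e2 : (u.map fun a => (a.1, a.2.2)) = u2 := by
      refine list_prod_ext (by simpa [Function.comp_def, h3] using a0) ?_
      have := congrArg (List.map Prod.snd) a1
      rw [List.map_snd_zip (l₁ := u1.map Prod.snd) (by simp [l1, l2])] at this
      simpa [Function.comp_def] using this
    exact ⟨u, ⟨a0, by rwa [e1], by rwa [e2]⟩, by rw [e1, e2]⟩

theorem RC.mul {F F' : List Γ → ℕ} (h : RC F) (h' : RC F') : RC fun w => F w * F' w := by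
  obtain ⟨Δ, _, _, L, h1, h2⟩ := h
  obtain ⟨Δ', _, _, L', h1', h2'⟩ := h'
  exact ⟨Δ × Δ', inferInstance, inferInstance, _, (h1.comap _).and (h1'.comap _), h2.mul h2'⟩

theorem counts_const {Δ : Type} (d : Δ) :
    Counts (fun u : List (Γ × Δ) => ∀ a ∈ u, a.2 = d) fun _ => 1 := by
  intro w _
  rw [Set.ncard_eq_one]
  refine ⟨w.map fun a => (a, d), ?_⟩
  ext u
  simp only [mem_ofPred_eq, mem_singleton_iff]
  constructor
  · rintro ⟨rfl, h⟩
    rw [List.map_map]
    conv_lhs => rw [← List.map_id u]
    exact List.map_congr_left fun a ha => Prod.ext rfl (h a ha)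
  · rintro rfl
    simp [Function.comp_def]

theorem RC.add {F F' : List Γ → ℕ} (h : RC F) (h' : RC F') : RC fun w => F w + F' w := by
  obtain ⟨Δ, _, _, L, h1, h2⟩ := h
  obtain ⟨Δ', _, _, L', h1', h2'⟩ := h'
  have a := (h2.mul (counts_const (default : Δ'))).mul (counts_const true)
  have b := ((counts_const (default : Δ)).mul h2').mul (counts_const false)
  have ra := (((h1.comap fun a : Γ × (Δ × Δ') => (a.1, a.2.1)).and
    ((reg_all fun a : Γ × Δ' => a.2 = default).comap fun a : Γ × (Δ × Δ') => (a.1, a.2.2))).comap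
      fun a : Γ × ((Δ × Δ') × Bool) => (a.1, a.2.1)).and
    ((reg_all fun a : Γ × Bool => a.2 = true).comap fun a : Γ × ((Δ × Δ') × Bool) => (a.1, a.2.2))
  have rb := ((((reg_all fun a : Γ × Δ => a.2 = default).comap
    fun a : Γ × (Δ × Δ') => (a.1, a.2.1)).and
      (h1'.comap fun a : Γ × (Δ × Δ') => (a.1, a.2.2))).comap
      fun a : Γ × ((Δ × Δ') × Bool) => (a.1, a.2.1)).and
    ((reg_all fun a : Γ × Bool => a.2 = false).comap fun a : Γ × ((Δ × Δ') × Bool) => (a.1, a.2.2))
  refine ⟨(Δ × Δ') × Bool, inferInstance, inferInstance, _, ra.or rb, fun w hw => ?_⟩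
  have a' := a w hw
  have b' := b w hw
  simp only [mul_one, one_mul] at a' b'
  beta_reduce
  rw [← a', ← b', ← Set.ncard_union_eq ?_ (finite_fiber _ _) (finite_fiber _ _)]
  · congr 1
    ext u
    simp only [mem_ofPred_eq, mem_union]
    tauto
  · rw [Set.disjoint_left]
    rintro u ⟨h3, -, h4⟩ ⟨-, -, h5⟩
    cases u with
    | nil => exact hw h3.symm
    | cons x u =>
      have e1 := h4 (x.1, x.2.2) (by simp)
      have e2 := h5 (x.1, x.2.2) (by simp)
      simp only at e1 e2
      rw [e1] at e2
      exact Bool.noConfusion e2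

open Classical in
theorem RC.ind {K : List Γ → Prop} (h : Reg K) : RC fun w => if K w then 1 else 0 := by
  refine ⟨Unit, inferInstance, inferInstance, fun u => K (u.map Prod.fst), h.comap _,
    fun w hw => ?_⟩
  beta_reduce
  split_ifs with hK
  · refine Eq.trans ?_ (counts_const () w hw)
    congr 1
    ext u
    simp only [mem_ofPred_eq]
    exact and_congr_right fun e => by simp [e, hK]
  · rw [Set.ncard_eq_zero (finite_fiber _ _)]
    ext u
    simp only [mem_ofPred_eq, mem_empty_iff_false, iff_false, not_and]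
    rintro rfl
    exact hK

theorem RC.congr {F F' : List Γ → ℕ} (h : RC F) (e : ∀ w, F w = F' w) : RC F' := by
  rwa [← funext e]

theorem RC.const (n : ℕ) : RC fun _ : List Γ => n := by
  have h1 : RC fun _ : List Γ => 1 :=
    ⟨Unit, inferInstance, inferInstance, _, reg_all _, counts_const ()⟩
  induction n with
  | zero =>
    refine ⟨Unit, inferInstance, inferInstance, fun u => ∀ a ∈ u, False, reg_all _, fun w hw => ?_⟩
    rw [Set.ncard_eq_zero (finite_fiber _ _)]
    ext u
    simp only [mem_ofPred_eq, mem_empty_iff_false, iff_false, not_and]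
    rintro rfl h
    cases u with
    | nil => exact hw rfl
    | cons a u => exact h a (by simp)
  | succ n ih => exact ih.add h1

theorem RC.val (f : Γ → Bool) : RC fun w => val (w.map f) := by
  refine ⟨Bool, inferInstance, inferInstance,
    fun u => AE.val (u.map Prod.snd) < AE.val (u.map fun a => f a.1), ?_, fun w _ => ?_⟩
  · refine ⟨Bool, inferInstance, fun s a => if a.2 = f a.1 then s else f a.1, false,
      fun s => s = true, fun u => ?_⟩
    have : ∀ (u : List (Γ × Bool)) (s : Bool),
        u.foldl (fun s a => if a.2 = f a.1 then s else f a.1) s = true ↔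
          AE.val (u.map Prod.snd) < AE.val (u.map fun a => f a.1) ∨
          (AE.val (u.map Prod.snd) = AE.val (u.map fun a => f a.1) ∧ s = true) := by
      intro u
      induction u with
      | nil => simp
      | cons a u ih =>
        intro s
        rw [List.foldl_cons, ih]
        simp only [List.map_cons, AE.val]
        obtain ⟨g, b⟩ := a
        cases b <;> cases f g <;> cases s <;> simp <;> omega
    simp [this]
  · beta_reduce
    rw [← Set.ncard_Iio_nat (AE.val (w.map f))]
    refine Set.ncard_congr (fun u _ => AE.val (u.map Prod.snd)) ?_ ?_ ?_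
    · rintro u ⟨rfl, h⟩
      simpa [Function.comp_def] using h
    · rintro u v ⟨h1, -⟩ ⟨h2, -⟩ e
      refine list_prod_ext (h1.trans h2.symm) (val_inj ?_ e)
      simpa using congrArg List.length (h1.trans h2.symm)
    · intro m hm
      have hm' : m < 2 ^ w.length := lt_trans hm (by simpa using val_lt (w.map f))
      have a0 : (w.zip ((List.range w.length).map m.testBit)).map Prod.fst = w :=
        List.map_fst_zip (by simp)
      have a1 : (w.zip ((List.range w.length).map m.testBit)).map Prod.snd = _ :=
        List.map_snd_zip (by simp)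
      refine ⟨w.zip ((List.range w.length).map m.testBit), ⟨a0, ?_⟩, by
        rw [a1, val_map_testBit hm']⟩
      rw [a1, val_map_testBit hm']
      have : (List.map (fun a => f a.1) (w.zip ((List.range w.length).map m.testBit)))
          = w.map f := by
        conv_rhs => rw [← a0]
        simp [Function.comp_def]
      rw [this]
      exact hm

theorem RC.spare {F : List Γ → ℕ} (h : RC F) :
    ∃ (Δ : Type) (_ : Fintype Δ) (L : List (Γ × Δ) → Prop), Reg L ∧ Counts L F ∧
      ∀ w, w ≠ [] → ∃ u : List (Γ × Δ), u.map Prod.fst = w ∧ ¬ L u := by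
  obtain ⟨Δ, _, _, L, h1, h2⟩ := h
  refine ⟨Δ × Bool, inferInstance, _, (h1.comap _).and
    ((reg_all fun a : Γ × Bool => a.2 = false).comap _),
    fun w hw => ((h2.mul (counts_const false)) w hw).trans (mul_one _), fun w hw => ?_⟩
  refine ⟨w.map fun a => (a, (default, true)), by simp [Function.comp_def], fun h => ?_⟩
  cases w with
  | nil => exact hw rfl
  | cons a w => simpa using h.2 (a, true) (by simp)

end count

end Pool.Agent.H866Z.AE
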