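import Mathlib
import Pool.Agent.H866Z.AE.Idx

set_option autoImplicit false

open Set

namespace Pool.Agent.H866Z.AE

abbrev A1 : Type := List (ℕ × ℕ × ℕ) × ℕ × List ℕ
abbrev A2 : Type := List (ℕ × (Option ℕ × Option ℕ) × ℕ) × ℕ × List ℕ
abbrev LP : Type := A1 × A2

def D (l : LP) (w : List ℕ) : Prop := w ∈ (nfa l.1).accepts
def R (l : LP) (u v : List ℕ) : Prop := conv u v ∈ (nfa l.2).accepts

def Good (l : LP) : Prop :=
  (∀ u, D l u → R l u u) ∧ (∀ u, D l u → ∀ v, D l v → R l u v → R l v u) ∧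
    ∀ u, D l u → ∀ v, D l v → ∀ w, D l w → R l u v → R l v w → R l u w

def cls (l : LP) (x : List ℕ) : Set (List ℕ) := {y | D l y ∧ R l x y}

def Iso (l l' : LP) : Prop :=
  ∃ f : List ℕ → List ℕ, BijOn f {w | D l w} {w | D l' w} ∧
    ∀ u, D l u → ∀ v, D l v → (R l u v ↔ R l' (f u) (f v))

def classes (l : LP) (n : ℕ) : Set (Set (List ℕ)) :=
  {C | (∃ x, D l x ∧ C = cls l x) ∧ C.ncard = n}

theorem exists_bijOn_of_encard {α β : Type} [Nonempty β] {s : Set α} {t : Set β}
    (hs : s.Countable) (ht : t.Countable) (h : s.encard = t.encard) : ∃ f, BijOn f s t := by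
  classical
  have h1 : Cardinal.mk s = Cardinal.mk t :=
    Cardinal.toENat_injOn (Cardinal.le_aleph0_iff_set_countable.2 hs)
      (Cardinal.le_aleph0_iff_set_countable.2 ht) h
  obtain ⟨e⟩ := Cardinal.eq.1 h1
  refine ⟨fun x => if hx : x ∈ s then (e ⟨x, hx⟩ : β) else Classical.arbitrary β, ?_, ?_, ?_⟩
  · intro x hx
    simp [hx]
  · intro x hx y hy hxy
    simp only [hx, hy, dif_pos] at hxy
    exact congrArg Subtype.val (e.injective (Subtype.ext hxy))
  · intro y hy
    refine ⟨e.symm ⟨y, hy⟩, (e.symm ⟨y, hy⟩).2, ?_⟩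
    simp

theorem encard_eq_of_ncard {α β : Type} {s : Set α} {t : Set β} (hs : s.Nonempty)
    (ht : t.Nonempty) (h : s.ncard = t.ncard) : s.encard = t.encard := by
  by_cases h1 : s.Finite
  · have h2 : t.Finite := by
      apply Set.finite_of_ncard_ne_zero
      rw [← h]
      exact ((Set.ncard_pos h1).2 hs).ne'
    rw [← h1.cast_ncard_eq, ← h2.cast_ncard_eq, h]
  · have h2 : ¬ t.Finite := by
      intro h2
      have := (Set.ncard_pos h2).2 ht
      rw [← h, Set.Infinite.ncard h1] at this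
      exact lt_irrefl _ this
    rw [Set.Infinite.encard_eq h1, Set.Infinite.encard_eq h2]

section good
variable {l l' : LP}

theorem Good.self_mem (h : Good l) {x : List ℕ} (hx : D l x) : x ∈ cls l x := ⟨hx, h.1 x hx⟩

theorem Good.cls_eq_iff (h : Good l) {x y : List ℕ} (hx : D l x) (hy : D l y) :
    cls l x = cls l y ↔ R l x y := by
  constructor
  · intro e
    have := h.self_mem hy
    rw [← e] at this
    exact this.2
  · intro hxy
    ext z
    exact ⟨fun hz => ⟨hz.1, h.2.2 y hy x hx z hz.1 (h.2.1 x hx y hy hxy) hz.2⟩,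
      fun hz => ⟨hz.1, h.2.2 x hx y hy z hz.1 hxy hz.2⟩⟩

theorem Good.cls_eq_of_mem (h : Good l) {x y : List ℕ} (hx : D l x) (hy : y ∈ cls l x) :
    cls l y = cls l x := ((h.cls_eq_iff hx hy.1).2 hy.2).symm

theorem countable_classes (l : LP) (n : ℕ) : (classes l n).Countable :=
  (Set.countable_range (cls l)).mono fun _ hC => by
    obtain ⟨⟨x, _, rfl⟩, _⟩ := hC
    exact ⟨x, rfl⟩

theorem iso_iff (h : Good l) (h' : Good l') :
    Iso l l' ↔ ∀ n, (classes l n).encard = (classes l' n).encard := by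
  constructor
  · rintro ⟨f, hf, hR⟩ n
    have him : ∀ x, D l x → f '' cls l x = cls l' (f x) := by
      intro x hx
      ext y
      constructor
      · rintro ⟨z, hz, rfl⟩
        exact ⟨hf.mapsTo hz.1, (hR x hx z hz.1).1 hz.2⟩
      · intro hy
        obtain ⟨z, hz, rfl⟩ := hf.surjOn hy.1
        exact ⟨z, ⟨hz, (hR x hx z hz).2 hy.2⟩, rfl⟩
    have hnc : ∀ x, D l x → (cls l' (f x)).ncard = (cls l x).ncard := by
      intro x hx
      rw [← him x hx]
      exact Set.InjOn.ncard_image (hf.injOn.mono fun z hz => hz.1)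
    have hinj : InjOn (fun C => f '' C) (classes l n) := by
      rintro _ ⟨⟨x, hx, rfl⟩, -⟩ _ ⟨⟨y, hy, rfl⟩, -⟩ e
      simp only [him x hx, him y hy] at e
      exact (h.cls_eq_iff hx hy).2 ((hR x hx y hy).2
        ((h'.cls_eq_iff (hf.mapsTo hx) (hf.mapsTo hy)).1 e))
    rw [← hinj.encard_image]
    congr 1
    ext C
    constructor
    · rintro ⟨_, ⟨⟨x, hx, rfl⟩, hn⟩, rfl⟩
      simp only [him x hx]
      exact ⟨⟨f x, hf.mapsTo hx, rfl⟩, by rw [hnc x hx, hn]⟩
    · rintro ⟨⟨y, hy, rfl⟩, hn⟩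
      obtain ⟨x, hx, rfl⟩ := hf.surjOn hy
      exact ⟨cls l x, ⟨⟨x, hx, rfl⟩, by rw [← hnc x hx, hn]⟩, him x hx⟩
  · intro hn
    choose g hg using fun n => exists_bijOn_of_encard (countable_classes l n)
      (countable_classes l' n) (hn n)
    let G : Set (List ℕ) → Set (List ℕ) := fun C => g C.ncard C
    have hG : ∀ x, D l x → G (cls l x) ∈ classes l' (cls l x).ncard := fun x hx =>
      (hg _).mapsTo ⟨⟨x, hx, rfl⟩, rfl⟩
    have he : ∀ C : Set (List ℕ), ∃ e : List ℕ → List ℕ, (∃ x, D l x ∧ C = cls l x) →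
        BijOn e C (G C) := by
      intro C
      by_cases hC : ∃ x, D l x ∧ C = cls l x
      · obtain ⟨x, hx, rfl⟩ := hC
        obtain ⟨⟨y, hy, e1⟩, e2⟩ := hG x hx
        obtain ⟨e, he⟩ := exists_bijOn_of_encard (Set.to_countable (cls l x))
          (Set.to_countable (G (cls l x))) (encard_eq_of_ncard ⟨x, h.self_mem hx⟩
            (by rw [e1]; exact ⟨y, h'.self_mem hy⟩) e2.symm)
        exact ⟨e, fun _ => he⟩
      · exact ⟨id, fun h => absurd h hC⟩
    choose e he using he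
    let f : List ℕ → List ℕ := fun x => e (cls l x) x
    have hf1 : ∀ x, D l x → D l' (f x) ∧ cls l' (f x) = G (cls l x) := by
      intro x hx
      have h1 : f x ∈ G (cls l x) := (he _ ⟨x, hx, rfl⟩).mapsTo (h.self_mem hx)
      obtain ⟨⟨y, hy, e1⟩, -⟩ := hG x hx
      rw [e1] at h1 ⊢
      exact ⟨h1.1, h'.cls_eq_of_mem hy h1⟩
    have hGinj : ∀ x, D l x → ∀ y, D l y → G (cls l x) = G (cls l y) → cls l x = cls l y := by
      intro x hx y hy e1
      have e2 : (cls l x).ncard = (cls l y).ncard := by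
        rw [← (hG x hx).2, ← (hG y hy).2, e1]
      refine (hg (cls l x).ncard).injOn ⟨⟨x, hx, rfl⟩, rfl⟩ ⟨⟨y, hy, rfl⟩, e2.symm⟩ ?_
      simp only [G] at e1
      rw [e1, e2]
    have hRel : ∀ u, D l u → ∀ v, D l v → (R l u v ↔ R l' (f u) (f v)) := by
      intro u hu v hv
      rw [← h.cls_eq_iff hu hv, ← h'.cls_eq_iff (hf1 u hu).1 (hf1 v hv).1, (hf1 u hu).2,
        (hf1 v hv).2]
      exact ⟨fun e1 => by rw [e1], hGinj u hu v hv⟩
    refine ⟨f, ⟨fun x hx => (hf1 x hx).1, fun u hu v hv huv => ?_, fun y hy => ?_⟩, hRel⟩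
    · have e1 : cls l u = cls l v :=
        hGinj u hu v hv (by rw [← (hf1 u hu).2, ← (hf1 v hv).2, huv])
      refine (he _ ⟨u, hu, rfl⟩).injOn (h.self_mem hu) (by rw [e1]; exact h.self_mem hv) ?_
      simp only [f] at huv
      rw [huv, e1]
    · obtain ⟨C, ⟨⟨x, hx, rfl⟩, hn⟩, e1⟩ :=
        (hg (cls l' y).ncard).surjOn (show cls l' y ∈ classes l' _ from ⟨⟨y, hy, rfl⟩, rfl⟩)
      have h1 : y ∈ G (cls l x) := by
        simp only [G]
        rw [hn, e1]
        exact h'.self_mem hy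
      obtain ⟨u, hu, e2⟩ := (he _ ⟨x, hx, rfl⟩).surjOn h1
      refine ⟨u, hu.1, ?_⟩
      simp only [f]
      rw [h.cls_eq_of_mem hx hu, e2]

end good

/-! ### codes of words -/

/-- the word with a given code -/
def wd (c : ℕ) : List ℕ := Denumerable.ofNat (List ℕ) c

/-- bound for codes of words -/
def cbd (s m : ℕ) : ℕ := (fun y => Nat.pair s y + 1)^[m] 0

theorem cbd_succ (s m : ℕ) : cbd s (m + 1) = Nat.pair s (cbd s m) + 1 := by
  unfold cbd
  rw [Function.iterate_succ_apply']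

theorem pair_le_pair {a a' b b' : ℕ} (h : a ≤ a') (h' : b ≤ b') : Nat.pair a b ≤ Nat.pair a' b' := by
  calc Nat.pair a b ≤ Nat.pair a' b := by
        rcases h.lt_or_eq with h | h
        · exact (Nat.pair_lt_pair_left b h).le
        · rw [h]
    _ ≤ Nat.pair a' b' := by
        rcases h'.lt_or_eq with h' | h'
        · exact (Nat.pair_lt_pair_right a' h').le
        · rw [h']

theorem encode_le_cbd (s : ℕ) : ∀ (m : ℕ) (w : List ℕ), (∀ a ∈ w, a ≤ s) → w.length ≤ m →
    Encodable.encode w ≤ cbd s m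
  | _, [], _, _ => by simp
  | 0, _ :: _, _, h => by simp at h
  | m + 1, a :: w, h1, h2 => by
    rw [cbd_succ, Encodable.encode_list_cons]
    exact Nat.succ_le_succ (pair_le_pair (h1 a List.mem_cons_self)
      (encode_le_cbd s m w (fun b hb => h1 b (List.mem_cons_of_mem _ hb)) (by simpa using h2)))

theorem letters_of_evalFrom {α : Type} (t : List (ℕ × α × ℕ) × ℕ × List ℕ) :
    ∀ (w : List α) (S : Set ℕ) (q : ℕ), q ∈ (nfa t).evalFrom S w →
      ∀ a ∈ w, ∃ x ∈ t.1, x.2.1 = a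
  | [], _, _, _ => by simp
  | b :: w, S, q, h => by
    intro a ha
    rw [NFA.evalFrom_cons] at h
    rcases List.mem_cons.1 ha with rfl | ha
    · obtain ⟨p, hp, -⟩ := NFA.mem_evalFrom_iff_exists.1 h
      obtain ⟨p', -, hp'⟩ := NFA.mem_stepSet.1 hp
      exact ⟨_, hp', rfl⟩
    · exact letters_of_evalFrom t w _ q h a ha

/-- bound for the codes of words of the domain of length at most `m` -/
def cb (l : LP) (m : ℕ) : ℕ := cbd (l.1.1.map fun x => x.2.1).sum m + 1

theorem encode_lt_cb {l : LP} {w : List ℕ} (h : D l w) {m : ℕ} (hm : w.length ≤ m) :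
    Encodable.encode w < cb l m := by
  refine Nat.lt_succ_of_le (encode_le_cbd _ m w (fun a ha => ?_) hm)
  obtain ⟨q, -, hq⟩ := NFA.mem_accepts.1 h
  obtain ⟨x, hx, rfl⟩ := letters_of_evalFrom l.1 w _ q hq a ha
  exact List.le_sum_of_mem (List.mem_map_of_mem (f := fun x : ℕ × ℕ × ℕ => x.2.1) hx)

theorem wd_encode (w : List ℕ) : wd (Encodable.encode w) = w := Denumerable.ofNat_encode w

theorem encode_wd (c : ℕ) : Encodable.encode (wd c) = c := Denumerable.encode_ofNat c

theorem finite_short (l : LP) (m : ℕ) : {w | D l w ∧ w.length ≤ m}.Finite :=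
  ((Set.finite_lt_nat (cb l m)).image wd).subset fun w hw =>
    ⟨_, encode_lt_cb hw.1 hw.2, wd_encode w⟩

open Classical in
/-- number of codes below `N` of words with a property -/
noncomputable def cnt (N : ℕ) (p : List ℕ → Prop) : ℕ :=
  ((List.range N).filter fun c => decide (p (wd c))).length

theorem cnt_eq (N : ℕ) (p : List ℕ → Prop) :
    (cnt N p : ℕ∞) = {w | p w ∧ Encodable.encode w < N}.encard := by
  classical
  have e : {w | p w ∧ Encodable.encode w < N}
      = wd '' (((List.range N).filter fun c => decide (p (wd c))).toFinset : Set ℕ) := by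
    ext w
    simp only [mem_ofPred_eq, List.coe_toFinset, List.mem_filter, List.mem_range,
      decide_eq_true_eq, mem_image]
    constructor
    · rintro ⟨h1, h2⟩
      exact ⟨_, ⟨h2, by rwa [wd_encode]⟩, wd_encode w⟩
    · rintro ⟨c, ⟨h1, h2⟩, rfl⟩
      exact ⟨h2, by rwa [encode_wd]⟩
  have hinj : Function.Injective wd := fun a b h => by rw [← encode_wd a, h, encode_wd]
  rw [e, hinj.encard_image, Set.encard_coe_eq_coe_finsetCard,
    List.toFinset_card_of_nodup (List.nodup_range.filter _)]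
  unfold cnt
  congr

/-! ### representatives -/

def Rep (l : LP) (x : List ℕ) : Prop :=
  D l x ∧ ∀ y ∈ cls l x, x.length ≤ y.length ∧ (y.length ≤ x.length → ¬ y < x)

def TT (l : LP) (n : ℕ) : Set (List ℕ) := {x | Rep l x ∧ (cls l x).ncard = n}

theorem encard_TT {l : LP} (h : Good l) (n : ℕ) : (TT l n).encard = (classes l n).encard := by
  have hinj : InjOn (cls l) (TT l n) := by
    rintro x ⟨hx, -⟩ y ⟨hy, -⟩ e
    have h1 := hx.2 y (by rw [e]; exact h.self_mem hy.1)
    have h2 := hy.2 x (by rw [← e]; exact h.self_mem hx.1)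
    exact le_antisymm (not_lt.1 (h1.2 h2.1)) (not_lt.1 (h2.2 h1.1))
  rw [← hinj.encard_image]
  congr 1
  ext C
  constructor
  · rintro ⟨x, ⟨hx, hn⟩, rfl⟩
    exact ⟨⟨x, hx.1, rfl⟩, hn⟩
  · rintro ⟨⟨x, hx, rfl⟩, hn⟩
    obtain ⟨y, hy, hmin⟩ := WellFounded.has_min (InvImage.wf List.length wellFounded_lt)
      (cls l x) ⟨x, h.self_mem hx⟩
    have hfin : {z | z ∈ cls l x ∧ z.length ≤ y.length}.Finite :=
      (finite_short l y.length).subset fun z hz => ⟨hz.1.1, hz.2⟩
    obtain ⟨z, hz, hzmin⟩ := Set.exists_min_image _ id hfin ⟨y, hy, le_rfl⟩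
    have e := h.cls_eq_of_mem hx hz.1
    refine ⟨z, ⟨⟨hz.1.1, fun w hw => ?_⟩, by rw [e, hn]⟩, e⟩
    rw [e] at hw
    exact ⟨hz.2.trans (not_lt.1 (hmin w hw)), fun hwz => not_lt.2 (hzmin w ⟨hw, hwz.trans hz.2⟩)⟩

end Pool.Agent.H866Z.AE
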