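import Mathlib
import Pool.Agent.H866Z.AE.Sem
import Pool.Agent.H866Z.AE.Reg

set_option autoImplicit false

open Set

namespace Pool.Agent.H866Z.AE

theorem conv_eq_map {A : Type} (e : A → ℕ) : ∀ (c : List (A × A)) (w w' : List ℕ),
    conv w w' = c.map (fun a => (some (e a.1), some (e a.2))) ↔
      w = (c.map Prod.fst).map e ∧ w' = (c.map Prod.snd).map e
  | [], [], [] => by simp [conv_nil_nil]
  | [], [], y :: v => by simp [conv_nil_cons]
  | [], x :: u, [] => by simp [conv_cons_nil]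
  | [], x :: u, y :: v => by simp [conv_cons_cons]
  | a :: c, [], [] => by simp [conv_nil_nil]
  | a :: c, [], y :: v => by simp [conv_nil_cons]
  | a :: c, x :: u, [] => by simp [conv_cons_nil]
  | a :: c, x :: u, y :: v => by
    rw [conv_cons_cons, List.map_cons, List.cons.injEq, conv_eq_map e c u v]
    simp only [List.map_cons, List.cons.injEq, Prod.mk.injEq, Option.some.injEq]
    tauto

theorem map_eq_iff_zip {A B : Type} (g : A → B) (c : List (A × A)) :
    (∀ a ∈ c, g a.1 = g a.2) ↔ (c.map Prod.fst).map g = (c.map Prod.snd).map g := by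
  rw [List.map_map, List.map_map, List.map_inj_left]
  rfl

theorem exists_rel {Γ : Type} [Fintype Γ] {F : List Γ → ℕ} (h : RC F) :
    ∃ (Δ : Type) (_ : Fintype Δ) (e : Γ × Δ → ℕ) (t : A2), Function.Injective e ∧ t.1.Nodup ∧
      t.2.2.Nodup ∧ ∀ (d : A1) (K : List Γ → Prop) (S : Set ℕ), S.Nonempty → (∀ n ∈ S, 2 ≤ n) →
        (∀ w, K w → w ≠ [] ∧ F w ∈ S) → (∀ n ∈ S, ∀ N, ∃ w, K w ∧ F w = n ∧ N ≤ w.length) →
        (∀ w, w ∈ (nfa d).accepts ↔ ∃ u : List (Γ × Δ), K (u.map Prod.fst) ∧ w = u.map e) →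
        Good (d, t) ∧ (∀ n, n = 1 ∨ n ∈ S → (classes (d, t) n).Infinite) ∧
          ∀ n, ¬ (n = 1 ∨ n ∈ S) → classes (d, t) n = ∅ := by
  classical
  obtain ⟨Δ, _, L, hL, hC, hsp⟩ := h.spare
  let e : Γ × Δ → ℕ := fun a => (Fintype.equivFin (Γ × Δ) a : ℕ)
  have he : Function.Injective e := fun x y h => (Fintype.equivFin _).injective (Fin.ext h)
  have hme : Function.Injective (List.map e) := List.map_injective_iff.2 he
  have hreg : Reg fun c : List ((Γ × Δ) × (Γ × Δ)) => (∀ a ∈ c, a.1 = a.2) ∨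
      ((∀ a ∈ c, a.1.1 = a.2.1) ∧ L (c.map Prod.fst) ∧ L (c.map Prod.snd)) :=
    (reg_all _).or ((reg_all _).and ((hL.comap _).and (hL.comap _)))
  obtain ⟨t, ht1, ht2, ht⟩ :=
    exists_code (fun a : (Γ × Δ) × (Γ × Δ) => (some (e a.1), some (e a.2))) hreg
  refine ⟨Δ, inferInstance, e, t, he, ht1, ht2, fun d K S hS hS2 hK hKS hd => ?_⟩
  let rel : List (Γ × Δ) → List (Γ × Δ) → Prop := fun u v =>
    u = v ∨ (u.map Prod.fst = v.map Prod.fst ∧ L u ∧ L v)
  have hR : ∀ u v, R (d, t) (u.map e) (v.map e) ↔ rel u v := by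
    intro u v
    unfold R
    rw [ht]
    constructor
    · rintro ⟨c, hc, h1⟩
      obtain ⟨h2, h3⟩ := (conv_eq_map e c _ _).1 h1
      obtain rfl := hme h2
      obtain rfl := hme h3
      rcases hc with hc | ⟨h4, h5⟩
      · left
        simpa using (map_eq_iff_zip id c).1 hc
      · exact Or.inr ⟨(map_eq_iff_zip Prod.fst c).1 h4, h5⟩
    · intro huv
      have hl : u.length = v.length := by
        rcases huv with rfl | ⟨h1, -⟩
        · rfl
        · simpa using congrArg List.length h1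
      have a0 : (u.zip v).map Prod.fst = u := List.map_fst_zip hl.le
      have a1 : (u.zip v).map Prod.snd = v := List.map_snd_zip hl.ge
      refine ⟨u.zip v, ?_, (conv_eq_map e _ _ _).2 ⟨by rw [a0], by rw [a1]⟩⟩
      rcases huv with h1 | ⟨h1, h2⟩
      · left
        refine (map_eq_iff_zip id _).2 ?_
        rw [a0, a1, h1]
      · right
        refine ⟨(map_eq_iff_zip Prod.fst _).2 ?_, ?_⟩
        · rw [a0, a1, h1]
        · rw [a0, a1]
          exact h2
  have hD : ∀ w, D (d, t) w ↔ ∃ u : List (Γ × Δ), K (u.map Prod.fst) ∧ w = u.map e := hd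
  have hfst : ∀ u v, rel u v → u.map Prod.fst = v.map Prod.fst := by
    rintro u v (rfl | h1)
    · rfl
    · exact h1.1
  have hcls : ∀ u, K (u.map Prod.fst) → cls (d, t) (u.map e) = List.map e '' {v | rel u v} := by
    intro u hu
    ext w
    constructor
    · rintro ⟨h1, h2⟩
      obtain ⟨v, -, rfl⟩ := (hD w).1 h1
      exact ⟨v, (hR u v).1 h2, rfl⟩
    · rintro ⟨v, hv, rfl⟩
      exact ⟨(hD _).2 ⟨v, by rw [← hfst u v hv]; exact hu, rfl⟩, (hR u v).2 hv⟩
  have hn1 : ∀ u, K (u.map Prod.fst) → L u →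
      (cls (d, t) (u.map e)).ncard = F (u.map Prod.fst) := by
    intro u hu h1
    rw [hcls u hu, Set.ncard_image_of_injective _ hme, ← hC _ (hK _ hu).1]
    congr 1
    ext v
    constructor
    · rintro (rfl | h2)
      · exact ⟨rfl, h1⟩
      · exact ⟨h2.1.symm, h2.2.2⟩
    · rintro ⟨h2, h3⟩
      exact Or.inr ⟨h2.symm, h1, h3⟩
  have hn2 : ∀ u, K (u.map Prod.fst) → ¬ L u → (cls (d, t) (u.map e)).ncard = 1 := by
    intro u hu h1
    rw [hcls u hu, Set.ncard_image_of_injective _ hme, Set.ncard_eq_one]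
    refine ⟨u, ?_⟩
    ext v
    constructor
    · rintro (rfl | h2)
      · rfl
      · exact absurd h2.2.1 h1
    · rintro rfl
      exact Or.inl rfl
  have hinf : ∀ n, (∀ N, ∃ u : List (Γ × Δ), K (u.map Prod.fst) ∧
      (cls (d, t) (u.map e)).ncard = n ∧ N ≤ u.length) → (classes (d, t) n).Infinite := by
    intro n H
    refine Set.Infinite.of_image (fun C : Set (List ℕ) => sInf (List.length '' C)) ?_
    refine Set.infinite_of_forall_exists_gt fun N => ?_
    obtain ⟨u, h1, h2, h3⟩ := H (N + 1)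
    refine ⟨u.length, ⟨cls (d, t) (u.map e), ⟨⟨_, (hD _).2 ⟨u, h1, rfl⟩, rfl⟩, h2⟩, ?_⟩, h3⟩
    have : List.length '' cls (d, t) (u.map e) = {u.length} := by
      rw [hcls u h1]
      ext k
      constructor
      · rintro ⟨_, ⟨v, hv, rfl⟩, rfl⟩
        simpa using (congrArg List.length (hfst u v hv)).symm
      · rintro rfl
        exact ⟨_, ⟨u, Or.inl rfl, rfl⟩, by simp⟩
    simp only [this, csInf_singleton]
  refine ⟨⟨?_, ?_, ?_⟩, ?_, ?_⟩
  · intro w hw
    obtain ⟨u, -, rfl⟩ := (hD w).1 hw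
    exact (hR u u).2 (Or.inl rfl)
  · intro w hw w' hw' H
    obtain ⟨u, -, rfl⟩ := (hD w).1 hw
    obtain ⟨v, -, rfl⟩ := (hD w').1 hw'
    rw [hR] at H ⊢
    rcases H with rfl | H
    · exact Or.inl rfl
    · exact Or.inr ⟨H.1.symm, H.2.2, H.2.1⟩
  · intro w hw w' hw' w'' hw'' H H'
    obtain ⟨u, -, rfl⟩ := (hD w).1 hw
    obtain ⟨v, -, rfl⟩ := (hD w').1 hw'
    obtain ⟨z, -, rfl⟩ := (hD w'').1 hw''
    rw [hR] at H H' ⊢
    rcases H with rfl | H
    · exact H'
    · rcases H' with rfl | H'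
      · exact Or.inr H
      · exact Or.inr ⟨H.1.trans H'.1, H.2.1, H'.2.2⟩
  · rintro n (rfl | hn)
    · refine hinf 1 fun N => ?_
      obtain ⟨m, hm⟩ := hS
      obtain ⟨w, h1, -, h3⟩ := hKS m hm N
      obtain ⟨u, rfl, h4⟩ := hsp w (hK w h1).1
      exact ⟨u, h1, hn2 u h1 h4, by simpa using h3⟩
    · refine hinf n fun N => ?_
      obtain ⟨w, h1, h2, h3⟩ := hKS n hn N
      have h4 := hC w (hK w h1).1
      obtain ⟨u, rfl, h5⟩ := Set.nonempty_of_ncard_ne_zero
        (s := {u : List (Γ × Δ) | u.map Prod.fst = w ∧ L u})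
        (by rw [h4, h2]; have := hS2 n hn; omega)
      exact ⟨u, h1, by rw [hn1 u h1 h5, h2], by simpa using h3⟩
  · intro n hn
    rw [Set.eq_empty_iff_forall_notMem]
    rintro _ ⟨⟨w, hw, rfl⟩, h1⟩
    obtain ⟨u, hu, rfl⟩ := (hD w).1 hw
    apply hn
    by_cases h2 : L u
    · right
      rw [← h1, hn1 u hu h2]
      exact (hK _ hu).2
    · left
      rw [← h1, hn2 u hu h2]

/-- the automaton checking the labels -/
def domA (A : Option Bool → List ℕ) (T : List Bool) : A1 :=
  ((List.range (T.length + 1)).flatMap fun i => (A T[i]?).map fun a => (i, a, min (i + 1) T.length),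
    0, [T.length])

theorem primrec_domA (A : Option Bool → List ℕ) : Primrec (domA A) := by
  refine Primrec.pair (Primrec.list_flatMap
    (Primrec.list_range.comp (Primrec.succ.comp Primrec.list_length)) ?_)
    (Primrec.pair (Primrec.const _)
      (Primrec.list_cons.comp Primrec.list_length (Primrec.const _)))
  refine Primrec.list_map ((Primrec.dom_finite A).comp Primrec.list_getElem?) ?_
  exact Primrec.pair (Primrec.snd.comp Primrec.fst) (Primrec.pair Primrec.snd
    (Primrec.nat_min.comp (Primrec.succ.comp (Primrec.snd.comp Primrec.fst))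
      (Primrec.list_length.comp (Primrec.fst.comp Primrec.fst))))

theorem nodup_domA {A : Option Bool → List ℕ} (hA : ∀ p, (A p).Nodup) (T : List Bool) :
    (domA A T).1.Nodup := by
  unfold domA
  rw [List.nodup_flatMap]
  refine ⟨fun i _ => (hA _).map fun a b h => by simpa using h, ?_⟩
  refine List.nodup_range.pairwise_of_forall_ne fun i _ j _ hij => ?_
  intro x hx hy
  simp only [List.mem_map] at hx hy
  obtain ⟨a, -, rfl⟩ := hx
  obtain ⟨b, -, hb⟩ := hy
  exact hij (congrArg Prod.fst hb).symm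

theorem evalFrom_domA (A : Option Bool → List ℕ) (T : List Bool) : ∀ (w : List ℕ) (i r : ℕ),
    i ≤ T.length → (r ∈ (nfa (domA A T)).evalFrom {i} w ↔
      (∀ k (h : k < w.length), w[k] ∈ A T[i + k]?) ∧ r = min (i + w.length) T.length)
  | [], i, r, hi => by simp [hi]
  | a :: w, i, r, hi => by
    have hstep : ∀ j, j ∈ (nfa (domA A T)).step i a ↔ a ∈ A T[i]? ∧ j = min (i + 1) T.length := by
      intro j
      simp only [nfa, domA, List.mem_flatMap, List.mem_range, List.mem_map, Prod.mk.injEq,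
        mem_ofPred_eq]
      constructor
      · rintro ⟨i', -, b, hb, rfl, rfl, rfl⟩
        exact ⟨hb, rfl⟩
      · rintro ⟨h1, rfl⟩
        exact ⟨i, by omega, a, h1, rfl, rfl, rfl⟩
    have hget : ∀ k, T[min (i + 1) T.length + k]? = T[i + (k + 1)]? := by
      intro k
      rcases le_total (i + 1) T.length with h | h
      · rw [min_eq_left h]
        congr 1
        omega
      · rw [min_eq_right h, List.getElem?_eq_none (by omega), List.getElem?_eq_none (by omega)]
    rw [NFA.evalFrom_cons, NFA.stepSet_singleton, NFA.mem_evalFrom_iff_exists]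
    constructor
    · rintro ⟨j, hj, hr⟩
      obtain ⟨h1, rfl⟩ := (hstep j).1 hj
      obtain ⟨h2, rfl⟩ := (evalFrom_domA A T w _ r (min_le_right _ _)).1 hr
      refine ⟨fun k hk => ?_, by simp only [List.length_cons]; omega⟩
      cases k with
      | zero => simpa using h1
      | succ k =>
        rw [← hget]
        simpa using h2 k (by simpa using hk)
    · rintro ⟨h1, rfl⟩
      refine ⟨_, (hstep _).2 ⟨h1 0 (by simp), rfl⟩,
        (evalFrom_domA A T w _ _ (min_le_right _ _)).2 ⟨fun k hk => ?_, ?_⟩⟩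
      · rw [hget]
        exact h1 (k + 1) (by simpa using hk)
      · simp only [List.length_cons]
        omega

theorem accepts_domA (A : Option Bool → List ℕ) (T : List Bool) (w : List ℕ) :
    w ∈ (nfa (domA A T)).accepts ↔
      T.length ≤ w.length ∧ ∀ k (h : k < w.length), w[k] ∈ A T[k]? := by
  rw [NFA.mem_accepts]
  have := fun r => evalFrom_domA A T w 0 r (Nat.zero_le _)
  simp only [zero_add] at this
  constructor
  · rintro ⟨r, h1, h2⟩
    obtain ⟨h3, h4⟩ := (this r).1 h2
    have h5 : r = T.length := by simpa [nfa, domA] using h1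
    exact ⟨by omega, h3⟩
  · rintro ⟨h1, h2⟩
    exact ⟨T.length, by simp [nfa, domA], (this _).2 ⟨h2, by omega⟩⟩

theorem exists_dom {B : Type} [Fintype B] (e : B → ℕ)
    (lab : B → Option Bool) : ∃ dm : List Bool → A1, Primrec dm ∧
      (∀ T, (dm T).1.Nodup ∧ (dm T).2.2.Nodup) ∧ ∀ T w, w ∈ (nfa (dm T)).accepts ↔
        ∃ u : List B, (T.length ≤ u.length ∧ ∀ k (h : k < u.length), lab u[k] = T[k]?) ∧
          w = u.map e := by
  classical
  let A : Option Bool → List ℕ := fun p => ((Finset.univ.filter fun b => lab b = p).image e).toList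
  have hA : ∀ a p, a ∈ A p ↔ ∃ b, lab b = p ∧ e b = a := by
    intro a p
    simp [A]
  refine ⟨domA A, primrec_domA A, fun T => ⟨nodup_domA (fun p => Finset.nodup_toList _) T,
    List.nodup_singleton _⟩, fun T w => ?_⟩
  rw [accepts_domA]
  constructor
  · rintro ⟨h1, h2⟩
    choose b hb using fun k : Fin w.length => (hA _ _).1 (h2 k k.2)
    refine ⟨List.ofFn b, ⟨by simpa using h1, fun k hk => ?_⟩, ?_⟩
    · rw [List.getElem_ofFn]
      exact (hb _).1
    · refine List.ext_getElem (by simp) fun k h3 h4 => ?_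
      rw [List.getElem_map, List.getElem_ofFn]
      exact (hb ⟨k, h3⟩).2.symm
  · rintro ⟨u, ⟨h1, h2⟩, rfl⟩
    refine ⟨by simpa using h1, fun k hk => (hA _ _).2 ⟨u[k]'(by simpa using hk), h2 _ _, ?_⟩⟩
    rw [List.getElem_map]

end Pool.Agent.H866Z.AE
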