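import Mathlib
import Pool.Agent.H866Z.AE.Sem

set_option autoImplicit false

open Set

namespace Pool.Agent.H866Z.AE

/-- base of the tower -/
def KK (l : LP) : ℕ := 4 * 2 ^ (l.1.1.length + l.2.1.length + 1)

theorem four_le_KK (l : LP) : 4 ≤ KK l := by
  have : 1 ≤ 2 ^ (l.1.1.length + l.2.1.length + 1) := Nat.one_le_two_pow
  unfold KK
  omega

abbrev Env : Type := Fin 3 → List ℕ

section lv
variable (l : LP)

theorem lvD (i : Fin 3) : Idx (fun e : Env => D l (e i)) (tw (KK l) 0) := by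
  refine (idx_dom l.1 i).mono ?_
  have : 2 ^ (l.1.1.length + 1) ≤ 2 ^ (l.1.1.length + l.2.1.length + 1) :=
    Nat.pow_le_pow_right (by norm_num) (by omega)
  show _ ≤ KK l
  unfold KK
  omega

theorem lvR (i j : Fin 3) : Idx (fun e : Env => R l (e i) (e j)) (tw (KK l) 0) := by
  refine (idx_rel l.2 i j).mono ?_
  have : 2 ^ (l.2.1.length + 1) ≤ 2 ^ (l.1.1.length + l.2.1.length + 1) :=
    Nat.pow_le_pow_right (by norm_num) (by omega)
  show _ ≤ KK l
  unfold KK
  omega

theorem lvLt (i j : Fin 3) : Idx (fun e : Env => e i < e j) (tw (KK l) 0) :=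
  (idx_lt i j).mono (le_trans (by norm_num) (four_le_KK l))

theorem lvLen (i j : Fin 3) : Idx (fun e : Env => (e i).length ≤ (e j).length) (tw (KK l) 0) :=
  (idx_len i j).mono (le_trans (by norm_num) (four_le_KK l))

theorem lvCls (i j : Fin 3) : Idx (fun e : Env => e j ∈ cls l (e i)) (tw (KK l) 1) :=
  (lvD l j).and_tw (four_le_KK l) (lvR l i j)

/-- a witness against being an equivalence relation -/
def Fine (u v w : List ℕ) : Prop :=
  ¬ (D l u ∧ D l v ∧ D l w ∧
    ¬ (R l u u ∧ ¬ (R l u v ∧ ¬ R l v u) ∧ ¬ (R l u v ∧ R l v w ∧ ¬ R l u w)))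

theorem good_iff_fine : Good l ↔ ∀ u v w, Fine l u v w := by
  constructor
  · rintro ⟨h1, h2, h3⟩ u v w ⟨hu, hv, hw, h⟩
    exact h ⟨h1 u hu, fun h => h.2 (h2 u hu v hv h.1), fun h => h.2.2 (h3 u hu v hv w hw h.1 h.2.1)⟩
  · intro h
    refine ⟨fun u hu => ?_, fun u hu v hv huv => ?_, fun u hu v hv w hw huv hvw => ?_⟩
    · by_contra hc
      exact h u u u ⟨hu, hu, hu, fun h' => hc h'.1⟩
    · by_contra hc
      exact h u v u ⟨hu, hv, hu, fun h' => h'.2.1 ⟨huv, hc⟩⟩
    · by_contra hc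
      exact h u v w ⟨hu, hv, hw, fun h' => h'.2.2 ⟨huv, hvw, hc⟩⟩

theorem good_iff_bdd : Good l ↔ ∀ a < cb l (tw (KK l) 8 + 1), ∀ b < cb l (tw (KK l) 8 + 1),
    ∀ c < cb l (tw (KK l) 8 + 1), Fine l (wd a) (wd b) (wd c) := by
  rw [good_iff_fine]
  refine ⟨fun h a _ b _ c _ => h _ _ _, fun h u v w hb => ?_⟩
  have h4 := four_le_KK l
  have hidx := (lvD l 0).and_tw h4 ((lvD l 1).and_tw h4 ((lvD l 2).and_tw h4
    ((lvR l 0 0).and_tw h4 (((lvR l 0 1).and_tw h4 (lvR l 1 0).not).not.and_tw h4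
      ((lvR l 0 1).and_tw h4 ((lvR l 1 2).and_tw h4 (lvR l 0 2).not)).not)).not))
  obtain ⟨e, he, -, hlen⟩ := hidx.shorten 0 ![u, v, w] hb
  simp only [zero_add] at hlen
  refine h _ (encode_lt_cb he.1 (hlen 0)) _ (encode_lt_cb he.2.1 (hlen 1)) _
    (encode_lt_cb he.2.2.1 (hlen 2)) ?_
  simp only [wd_encode]
  exact he

theorem infinite_iff (x : List ℕ) :
    (cls l x).Infinite ↔ ∀ z : List ℕ, ∃ y, y ∈ cls l x ∧ z.length ≤ y.length := by
  constructor
  · intro h z
    by_contra hc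
    push Not at hc
    exact h ((finite_short l z.length).subset fun y hy => ⟨hy.1, (hc y hy).le⟩)
  · intro h hfin
    obtain ⟨m, hm⟩ := (hfin.image List.length).bddAbove
    obtain ⟨y, hy, hlen⟩ := h (List.replicate (m + 1) 0)
    have := hm ⟨y, hy, rfl⟩
    simp at hlen
    omega

theorem lvLong : Idx (fun e : Env => e 1 ∈ cls l (e 0) ∧ (e 2).length ≤ (e 1).length)
    (tw (KK l) 2) := (lvCls l 0 1).and_tw (four_le_KK l) (lvLen l 2 1)

theorem lvNoLong : Idx (fun e : Env => ¬ ∃ y, y ∈ cls l (e 0) ∧ (e 2).length ≤ y.length)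
    (tw (KK l) 3) := ((lvLong l).ex_tw 1).not.congr fun e => by simp

theorem lvInf : Idx (fun e : Env => (cls l (e 0)).Infinite) (tw (KK l) 4) :=
  ((lvNoLong l).ex_tw 2).not.congr fun e => by simp [infinite_iff]

theorem infinite_of_long {x y : List ℕ} (hy : y ∈ cls l x)
    (hlen : x.length + tw (KK l) 3 + 1 ≤ y.length) : (cls l x).Infinite := by
  rw [infinite_iff]
  intro z
  by_contra hc
  obtain ⟨e, he, h0, h1⟩ := (lvNoLong l).shorten x.length ![x, [], z] hc
  rw [h0 0 le_rfl] at he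
  exact he ⟨y, hy, (h1 2).trans hlen⟩

theorem long_of_infinite {x : List ℕ} (h : (cls l x).Infinite) : ∃ y ∈ cls l x,
    x.length + tw (KK l) 3 + 1 ≤ y.length ∧ y.length ≤ x.length + 2 * tw (KK l) 3 + 2 := by
  obtain ⟨y, hy⟩ := (infinite_iff l x).1 h (List.replicate (x.length + tw (KK l) 3 + 1) 0)
  obtain ⟨e, he, h0, h1⟩ := (lvLong l).shorten (x.length + tw (KK l) 3 + 1)
    ![x, y, List.replicate (x.length + tw (KK l) 3 + 1) 0] hy
  rw [h0 0 (by simp; omega), h0 2 (by simp)] at he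
  have := tw_mono (KK l) (show 2 ≤ 3 by norm_num)
  have := h1 1
  exact ⟨e 1, he.1, by simpa using he.2, by omega⟩

open Classical in
theorem ncard_cls (x : List ℕ) : (cls l x).ncard =
    if ∃ c < cb l (x.length + 2 * tw (KK l) 3 + 2), wd c ∈ cls l x ∧
      x.length + tw (KK l) 3 + 1 ≤ (wd c).length then 0
    else cnt (cb l (x.length + 2 * tw (KK l) 3 + 2)) (· ∈ cls l x) := by
  split_ifs with h
  · obtain ⟨c, -, h1, h2⟩ := h
    exact (infinite_of_long l h1 h2).ncard
  · have e : {w | w ∈ cls l x ∧ Encodable.encode w < cb l (x.length + 2 * tw (KK l) 3 + 2)}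
        = cls l x := by
      ext w
      refine ⟨fun hw => hw.1, fun hw => ⟨hw, encode_lt_cb hw.1 ?_⟩⟩
      by_contra hc
      obtain ⟨y, hy, h1, h2⟩ := long_of_infinite l (infinite_of_long l hw (by omega))
      exact h ⟨_, encode_lt_cb hy.1 h2, by rwa [wd_encode], by rwa [wd_encode]⟩
    have := cnt_eq (cb l (x.length + 2 * tw (KK l) 3 + 2)) (· ∈ cls l x)
    rw [e] at this
    rw [Set.ncard_def, ← this]
    rfl

theorem rep_iff_bdd (x : List ℕ) : Rep l x ↔ D l x ∧ ∀ c < cb l x.length, wd c ∈ cls l x →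
    x.length ≤ (wd c).length ∧ ((wd c).length ≤ x.length → ¬ wd c < x) := by
  refine and_congr_right fun _ => ⟨fun h c _ hc => h _ hc, fun h y hy => ?_⟩
  by_cases hlen : y.length ≤ x.length
  · have := h _ (encode_lt_cb hy.1 hlen)
    rw [wd_encode] at this
    exact this hy
  · exact ⟨by omega, fun h' => absurd h' hlen⟩

theorem lvRep : Idx (fun e : Env => Rep l (e 0)) (tw (KK l) 6) := by
  have h4 := four_le_KK l
  refine ((lvD l 0).and_tw h4 (((lvCls l 0 1).and_tw h4 ((lvLen l 0 1).and_tw h4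
    ((lvLen l 1 0).and_tw h4 (lvLt l 1 0)).not).not).ex_tw 1).not).congr fun e => ?_
  simp [Rep]

theorem succ_le_encard_iff {α : Type} [LinearOrder α] (s : Set α) (j : ℕ) :
    ((j + 1 : ℕ) : ℕ∞) ≤ s.encard ↔ ∃ z ∈ s, (j : ℕ∞) ≤ {w | w ∈ s ∧ w < z}.encard := by
  constructor
  · intro h
    obtain ⟨F, hF, hc⟩ := Set.exists_subset_encard_eq h
    have hfin : F.Finite := Set.finite_of_encard_eq_coe hc
    have hne : F.Nonempty := by
      rw [← Set.encard_pos, hc]
      exact_mod_cast Nat.succ_pos j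
    obtain ⟨z, hz, hmax⟩ := Set.exists_max_image F id hfin hne
    refine ⟨z, hF hz, ?_⟩
    have h1 : (F \ {z}).encard = j := by
      have := Set.encard_sdiff_singleton_add_one hz
      rw [hc] at this
      push_cast at this
      exact (WithTop.add_right_inj ENat.one_ne_top).1 this
    rw [← h1]
    exact Set.encard_le_encard fun w hw => ⟨hF hw.1, lt_of_le_of_ne (hmax w hw.1) hw.2⟩
  · rintro ⟨z, hz, h⟩
    have h1 : (insert z {w | w ∈ s ∧ w < z}).encard = {w | w ∈ s ∧ w < z}.encard + 1 :=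
      Set.encard_insert_of_notMem fun h => lt_irrefl _ h.2
    calc ((j + 1 : ℕ) : ℕ∞) = j + 1 := by push_cast; rfl
      _ ≤ {w | w ∈ s ∧ w < z}.encard + 1 := by gcongr
      _ ≤ s.encard := by
        rw [← h1]
        exact Set.encard_le_encard (insert_subset hz fun w hw => hw.1)

theorem lvCh (j : ℕ) : Idx (fun e : Env => e 1 ∈ cls l (e 0) ∧
    (j : ℕ∞) ≤ {w | w ∈ cls l (e 0) ∧ w < e 1}.encard) (tw (KK l) (4 * j + 1)) := by
  have h4 := four_le_KK l
  induction j with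
  | zero => exact (lvCls l 0 1).congr fun e => by simp
  | succ j ih =>
    refine (((lvCls l 0 1).and_tw h4 (((lvLt l 2 1).and_tw h4
      (ih.rename ![0, 2, 1])).ex_tw 2)).mono_tw (by omega)).congr fun e => ?_
    refine and_congr_right fun _ => ?_
    rw [succ_le_encard_iff]
    constructor
    · rintro ⟨y, h1, h2, h3⟩
      simp at h1 h2 h3
      refine ⟨y, ⟨h2, h1⟩, h3.trans (Set.encard_le_encard fun w hw => ?_)⟩
      exact ⟨⟨hw.1, hw.2.trans h1⟩, hw.2⟩
    · rintro ⟨y, ⟨h2, h1⟩, h3⟩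
      refine ⟨y, by simpa using h1, by simpa using h2, ?_⟩
      simp
      exact h3.trans (Set.encard_le_encard fun w hw => ⟨hw.1.1, hw.2⟩)

theorem lvGe (j : ℕ) : Idx (fun e : Env => ((j + 1 : ℕ) : ℕ∞) ≤ (cls l (e 0)).encard)
    (tw (KK l) (4 * j + 2)) :=
  ((lvCh l j).ex_tw 1).congr fun e => by
    rw [succ_le_encard_iff]
    simp

theorem lvTT (h : Good l) (n : ℕ) : Idx (fun e : Env => e 0 ∈ TT l n) (tw (KK l) (8 * n + 11)) := by
  have h4 := four_le_KK l
  cases n with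
  | zero =>
    refine ((lvRep l).and_tw h4 (lvInf l)).congr fun e => and_congr_right fun he => ?_
    refine ⟨fun h => h.ncard, fun h' hfin => ?_⟩
    have := (Set.ncard_pos hfin).2 ⟨_, h.self_mem he.1⟩
    omega
  | succ n =>
    refine (((lvRep l).and_tw h4 ((lvGe l n).and_tw h4 (lvGe l (n + 1)).not)).mono_tw
      (by omega)).congr fun e => and_congr_right fun _ => ?_
    rw [Set.ncard_def]
    generalize (cls l (e 0)).encard = k
    induction k using ENat.recTopCoe with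
    | top => simp
    | coe k =>
      simp only [Nat.cast_le, ENat.toNat_natCast]
      omega

theorem le_encard_short {T : Set (List ℕ)} {j : ℕ} (hT : Idx (fun e : Env => e 0 ∈ T) (tw (KK l) j))
    (k : ℕ) (hk : (k : ℕ∞) ≤ T.encard) :
    (k : ℕ∞) ≤ {x | x ∈ T ∧ x.length ≤ k * (tw (KK l) (j + 1) + 2)}.encard := by
  induction k with
  | zero => simp
  | succ k ih =>
    have ih' := ih (le_trans (by exact_mod_cast Nat.le_succ k) hk)
    by_cases hall : ∀ x ∈ T, x.length ≤ k * (tw (KK l) (j + 1) + 2)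
    · refine hk.trans (Set.encard_le_encard fun x hx => ⟨hx, (hall x hx).trans ?_⟩)
      exact Nat.mul_le_mul_right _ (Nat.le_succ k)
    · push Not at hall
      obtain ⟨x, hx, hlen⟩ := hall
      obtain ⟨e, he, h0, h1⟩ := (hT.and_tw (four_le_KK l) (lvLen l 2 0)).shorten
        (k * (tw (KK l) (j + 1) + 2) + 1)
        ![x, [], List.replicate (k * (tw (KK l) (j + 1) + 2) + 1) 0] ⟨hx, by simpa using hlen⟩
      rw [h0 2 (by simp)] at he
      have h2 : k * (tw (KK l) (j + 1) + 2) + 1 ≤ (e 0).length := by simpa using he.2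
      have h3 := h1 0
      have h4 : (insert (e 0) {x | x ∈ T ∧ x.length ≤ k * (tw (KK l) (j + 1) + 2)}).encard
          = {x | x ∈ T ∧ x.length ≤ k * (tw (KK l) (j + 1) + 2)}.encard + 1 :=
        Set.encard_insert_of_notMem fun h => by have := h.2; omega
      calc ((k + 1 : ℕ) : ℕ∞) = k + 1 := by push_cast; rfl
        _ ≤ {x | x ∈ T ∧ x.length ≤ k * (tw (KK l) (j + 1) + 2)}.encard + 1 := by gcongr
        _ ≤ _ := by
          rw [← h4]
          refine Set.encard_le_encard (insert_subset ⟨he.1, ?_⟩ fun w hw => ⟨hw.1, hw.2.trans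
            (Nat.mul_le_mul_right _ (Nat.le_succ k))⟩)
          simp only [add_zero] at h3
          rw [Nat.succ_mul]
          omega

theorem le_classes_iff (h : Good l) (n k : ℕ) : (k : ℕ∞) ≤ (classes l n).encard ↔
    k ≤ cnt (cb l (k * (tw (KK l) (8 * n + 12) + 2))) (· ∈ TT l n) := by
  rw [← encard_TT h, ← Nat.cast_le (α := ℕ∞), cnt_eq]
  refine ⟨fun hk => (le_encard_short l (lvTT l h n) k hk).trans
    (Set.encard_le_encard fun x hx => ⟨hx.1, encode_lt_cb hx.1.1.1 hx.2⟩),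
    fun hk => hk.trans (Set.encard_le_encard fun x hx => hx.1)⟩

end lv

theorem enat_eq_iff {a b : ℕ∞} : a = b ↔ ∀ k : ℕ, ((k : ℕ∞) ≤ a ↔ (k : ℕ∞) ≤ b) := by
  refine ⟨fun h k => by rw [h], fun h => le_antisymm ?_ ?_⟩
  · exact ENat.forall_natCast_le_iff_le.1 fun k hk => (h k).1 hk
  · exact ENat.forall_natCast_le_iff_le.1 fun k hk => (h k).2 hk

end Pool.Agent.H866Z.AE
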