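import Mathlib
import Pool.Agent.H866Z.AE.Bound

set_option autoImplicit false
set_option linter.unusedSectionVars false

open Set

namespace Pool.Agent.H866Z.AE

section general
variable {α : Type} [Primcodable α]

theorem pp_exists_mem {β : Type} [Primcodable β] {f : α → List β} {p : α → β → Prop}
    (hf : Primrec f) (hp : PrimrecPred fun x : α × β => p x.1 x.2) :
    PrimrecPred fun a => ∃ b ∈ f a, p a b := by
  have h1 : PrimrecRel fun (b : β) (a : α) => p a b :=
    hp.comp (Primrec.pair Primrec.snd Primrec.fst)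
  exact h1.exists_mem_list.comp hf Primrec.id

theorem pp_exists_lt {f : α → ℕ} {p : α → ℕ → Prop} (hf : Primrec f)
    (hp : PrimrecPred fun x : α × ℕ => p x.1 x.2) : PrimrecPred fun a => ∃ c < f a, p a c :=
  (pp_exists_mem (Primrec.list_range.comp hf) hp).of_eq fun a => by simp

theorem pp_forall_lt {f : α → ℕ} {p : α → ℕ → Prop} (hf : Primrec f)
    (hp : PrimrecPred fun x : α × ℕ => p x.1 x.2) : PrimrecPred fun a => ∀ c < f a, p a c :=
  (pp_exists_lt (p := fun a c => ¬ p a c) hf hp.not).not.of_eq fun a => by simp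

theorem pp_imp {p q : α → Prop} (hp : PrimrecPred p) (hq : PrimrecPred q) :
    PrimrecPred fun a => p a → q a :=
  (hp.not.or hq).of_eq fun a => by tauto

theorem pp_iff {p q : α → Prop} (hp : PrimrecPred p) (hq : PrimrecPred q) :
    PrimrecPred fun a => p a ↔ q a :=
  ((pp_imp hp hq).and (pp_imp hq hp)).of_eq fun a => by tauto

theorem pp_mem {β : Type} [Primcodable β] {f : α → List β} {g : α → β}
    (hf : Primrec f) (hg : Primrec g) : PrimrecPred fun a => g a ∈ f a :=
  (pp_exists_mem (p := fun a b => b = g a) hf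
    (Primrec.eq.comp Primrec.snd (hg.comp Primrec.fst))).of_eq fun a => by simp

theorem primrec_wd : Primrec wd := Primrec.ofNat (List ℕ)

theorem primrec_cnt {f : α → ℕ} {p : α → List ℕ → Prop} (hf : Primrec f)
    (hp : PrimrecPred fun x : α × List ℕ => p x.1 x.2) : Primrec fun a => cnt (f a) (p a) := by
  classical
  have h1 : PrimrecRel fun (c : ℕ) (a : α) => p a (wd c) :=
    hp.comp (Primrec.pair Primrec.snd (primrec_wd.comp Primrec.fst))
  exact (Primrec.list_length.comp (h1.listFilter.comp (Primrec.list_range.comp hf)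
    Primrec.id)).of_eq fun a => by unfold cnt; congr

theorem primrec_pow2 : Primrec fun n : ℕ => 2 ^ n :=
  (Primrec₂.unpaired'.1 Nat.Primrec.pow).comp (Primrec.const 2) Primrec.id

theorem primrec_tw {f g : α → ℕ} (hf : Primrec f) (hg : Primrec g) :
    Primrec fun a => tw (f a) (g a) :=
  Primrec.nat_iterate (h := fun _ x => 2 ^ x) hg hf (primrec_pow2.comp Primrec.snd)

theorem primrec_cbd {f g : α → ℕ} (hf : Primrec f) (hg : Primrec g) :
    Primrec fun a => cbd (f a) (g a) :=
  Primrec.nat_iterate (h := fun a y => Nat.pair (f a) y + 1) hg (Primrec.const 0)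
    (Primrec.succ.comp (Primrec₂.natPair.comp (hf.comp Primrec.fst) Primrec.snd))

theorem primrec_sum : Primrec fun L : List ℕ => L.sum :=
  (Primrec.list_foldr (h := fun _ x => x.1 + x.2) Primrec.id (Primrec.const 0)
    (Primrec.nat_add.comp (Primrec.fst.comp Primrec.snd) (Primrec.snd.comp Primrec.snd))).of_eq
    fun L => by
      induction L with
      | nil => rfl
      | cons a L ih => simp only [id, List.foldr_cons, List.sum_cons] at ih ⊢; rw [ih]

end general

section run
variable {β : Type} [Primcodable β]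

open Classical in
/-- one step of the subset construction on lists -/
noncomputable def stepL (t : List (ℕ × β × ℕ)) (S : List ℕ) (a : β) : List ℕ :=
  (t.filter fun x => decide (x.1 ∈ S ∧ x.2.1 = a)).map fun x => x.2.2

theorem evalFrom_foldl (t : List (ℕ × β × ℕ) × ℕ × List ℕ) : ∀ (w : List β) (S : List ℕ),
    (nfa t).evalFrom {q | q ∈ S} w = {q | q ∈ w.foldl (stepL t.1) S}
  | [], _ => rfl
  | a :: w, S => by
    rw [NFA.evalFrom_cons, List.foldl_cons, ← evalFrom_foldl t w]
    congr 1
    ext q
    simp only [NFA.mem_stepSet, stepL, mem_ofPred_eq, List.mem_map, List.mem_filter,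
      decide_eq_true_eq]
    constructor
    · rintro ⟨p, hp, h⟩
      exact ⟨(p, a, q), ⟨h, hp, rfl⟩, rfl⟩
    · rintro ⟨⟨p, b, r⟩, ⟨h, hp, rfl⟩, rfl⟩
      exact ⟨p, hp, h⟩

theorem accepts_iff (t : List (ℕ × β × ℕ) × ℕ × List ℕ) (w : List β) :
    w ∈ (nfa t).accepts ↔ ∃ q ∈ t.2.2, q ∈ w.foldl (stepL t.1) [t.2.1] := by
  rw [NFA.mem_accepts]
  have : (nfa t).start = {q | q ∈ [t.2.1]} := by
    ext q
    simp [nfa]
  rw [this, evalFrom_foldl]
  rfl

theorem primrec_stepL : Primrec fun x : List (ℕ × β × ℕ) × List ℕ × β => stepL x.1 x.2.1 x.2.2 := by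
  classical
  have h1 : PrimrecRel fun (y : ℕ × β × ℕ) (x : List (ℕ × β × ℕ) × List ℕ × β) =>
      y.1 ∈ x.2.1 ∧ y.2.1 = x.2.2 :=
    PrimrecPred.and (pp_mem (Primrec.fst.comp (Primrec.snd.comp Primrec.snd))
      (Primrec.fst.comp Primrec.fst))
      (Primrec.eq.comp (Primrec.fst.comp (Primrec.snd.comp Primrec.fst))
        (Primrec.snd.comp (Primrec.snd.comp Primrec.snd)))
  exact (Primrec.list_map (g := fun _ (y : ℕ × β × ℕ) => y.2.2)
    (h1.listFilter.comp Primrec.fst Primrec.id)
    (Primrec.snd.comp (Primrec.snd.comp Primrec.snd))).of_eq fun x => by unfold stepL; congr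

theorem pp_accepts {α : Type} [Primcodable α] {t : α → List (ℕ × β × ℕ) × ℕ × List ℕ}
    {w : α → List β} (ht : Primrec t) (hw : Primrec w) :
    PrimrecPred fun a => w a ∈ (nfa (t a)).accepts := by
  have h1 : Primrec fun a => (w a).foldl (stepL (t a).1) [(t a).2.1] :=
    Primrec.list_foldl (h := fun a (x : List ℕ × β) => stepL (t a).1 x.1 x.2) hw
      (Primrec.list_cons.comp (Primrec.fst.comp (Primrec.snd.comp ht)) (Primrec.const []))
      (primrec_stepL.comp (Primrec.pair (Primrec.fst.comp (ht.comp Primrec.fst)) Primrec.snd))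
  exact (pp_exists_mem (p := fun a q => q ∈ (w a).foldl (stepL (t a).1) [(t a).2.1])
    (Primrec.snd.comp (Primrec.snd.comp ht))
    (pp_mem (h1.comp Primrec.fst) Primrec.snd)).of_eq fun a => (accepts_iff _ _).symm

end run

section preds
variable {α : Type} [Primcodable α] {l : α → LP} {u v w : α → List ℕ} {m n : α → ℕ}

theorem primrec_conv (hu : Primrec u) (hv : Primrec v) : Primrec fun a => conv (u a) (v a) :=
  Primrec.list_map (g := fun a i => ((u a)[i]?, (v a)[i]?))
    (Primrec.list_range.comp (Primrec.nat_max.comp (Primrec.list_length.comp hu)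
      (Primrec.list_length.comp hv)))
    (Primrec.pair (Primrec.list_getElem?.comp (hu.comp Primrec.fst) Primrec.snd)
      (Primrec.list_getElem?.comp (hv.comp Primrec.fst) Primrec.snd))

theorem pp_D (hl : Primrec l) (hu : Primrec u) : PrimrecPred fun a => D (l a) (u a) :=
  pp_accepts (Primrec.fst.comp hl) hu

theorem pp_R (hl : Primrec l) (hu : Primrec u) (hv : Primrec v) :
    PrimrecPred fun a => R (l a) (u a) (v a) :=
  pp_accepts (Primrec.snd.comp hl) (primrec_conv hu hv)

theorem pp_cls (hl : Primrec l) (hu : Primrec u) (hv : Primrec v) :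
    PrimrecPred fun a => v a ∈ cls (l a) (u a) :=
  (pp_D hl hv).and (pp_R hl hu hv)

theorem primrec_cb (hl : Primrec l) (hm : Primrec m) : Primrec fun a => cb (l a) (m a) :=
  Primrec.succ.comp (primrec_cbd (primrec_sum.comp
    (Primrec.list_map (g := fun _ (x : ℕ × ℕ × ℕ) => x.2.1)
      (Primrec.fst.comp (Primrec.fst.comp hl))
      (Primrec.fst.comp (Primrec.snd.comp Primrec.snd)))) hm)

theorem primrec_KK (hl : Primrec l) : Primrec fun a => KK (l a) :=
  Primrec.nat_mul.comp (Primrec.const 4) (primrec_pow2.comp (Primrec.succ.comp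
    (Primrec.nat_add.comp (Primrec.list_length.comp (Primrec.fst.comp (Primrec.fst.comp hl)))
      (Primrec.list_length.comp (Primrec.fst.comp (Primrec.snd.comp hl))))))

theorem pp_Fine (hl : Primrec l) (hu : Primrec u) (hv : Primrec v) (hw : Primrec w) :
    PrimrecPred fun a => Fine (l a) (u a) (v a) (w a) :=
  ((pp_D hl hu).and ((pp_D hl hv).and ((pp_D hl hw).and ((pp_R hl hu hu).and
    (((pp_R hl hu hv).and (pp_R hl hv hu).not).not.and
      ((pp_R hl hu hv).and ((pp_R hl hv hw).and (pp_R hl hu hw).not)).not)).not))).not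

theorem pp_Good (hl : Primrec l) : PrimrecPred fun a => Good (l a) := by
  have hb : Primrec fun a => cb (l a) (tw (KK (l a)) 8 + 1) :=
    primrec_cb hl (Primrec.succ.comp (primrec_tw (primrec_KK hl) (Primrec.const 8)))
  refine (pp_forall_lt (p := fun a x => ∀ b < cb (l a) (tw (KK (l a)) 8 + 1),
    ∀ c < cb (l a) (tw (KK (l a)) 8 + 1), Fine (l a) (wd x) (wd b) (wd c)) hb
    (pp_forall_lt (p := fun (a : α × ℕ) b => ∀ c < cb (l a.1) (tw (KK (l a.1)) 8 + 1),
      Fine (l a.1) (wd a.2) (wd b) (wd c)) (hb.comp Primrec.fst)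
      (pp_forall_lt (p := fun (a : (α × ℕ) × ℕ) c => Fine (l a.1.1) (wd a.1.2) (wd a.2) (wd c))
        (hb.comp (Primrec.fst.comp Primrec.fst))
        (pp_Fine (hl.comp (Primrec.fst.comp (Primrec.fst.comp Primrec.fst)))
          (primrec_wd.comp (Primrec.snd.comp (Primrec.fst.comp Primrec.fst)))
          (primrec_wd.comp (Primrec.snd.comp Primrec.fst))
          (primrec_wd.comp Primrec.snd))))).of_eq fun a => (good_iff_bdd _).symm

/-- shifted letters -/
def cd (u : List ℕ) (i : ℕ) : ℕ := ((u[i]?).map Nat.succ).getD 0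

theorem lt_iff_cd : ∀ u v : List ℕ,
    u < v ↔ ∃ i < v.length, (∀ j < i, cd u j = cd v j) ∧ cd u i < cd v i
  | [], [] => by simp
  | _ :: _, [] => by simp
  | [], y :: v => by
    simp only [List.nil_lt_cons, true_iff]
    exact ⟨0, by simp, by simp, by simp [cd]⟩
  | x :: u, y :: v => by
    rw [List.cons_lt_cons_iff, lt_iff_cd u v]
    constructor
    · rintro (h | ⟨rfl, i, hi, h1, h2⟩)
      · exact ⟨0, by simp, by simp, by simpa [cd] using h⟩
      · refine ⟨i + 1, by simpa using hi, fun j hj => ?_, by simpa [cd] using h2⟩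
        cases j with
        | zero => simp [cd]
        | succ j => simpa [cd] using h1 j (by omega)
    · rintro ⟨i, hi, h1, h2⟩
      cases i with
      | zero => exact Or.inl (by simpa [cd] using h2)
      | succ i =>
        refine Or.inr ⟨by simpa [cd] using h1 0 (by omega), i, by simpa using hi,
          fun j hj => by simpa [cd] using h1 (j + 1) (by omega), by simpa [cd] using h2⟩

theorem primrec_cd (hu : Primrec u) (hm : Primrec m) : Primrec fun a => cd (u a) (m a) :=
  Primrec.option_getD.comp (Primrec.option_map (g := fun _ x => Nat.succ x)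
    (Primrec.list_getElem?.comp hu hm) (Primrec.succ.comp Primrec.snd)) (Primrec.const 0)

theorem pp_lt (hu : Primrec u) (hv : Primrec v) : PrimrecPred fun a => u a < v a :=
  (pp_exists_lt (p := fun a i => (∀ j < i, cd (u a) j = cd (v a) j) ∧ cd (u a) i < cd (v a) i)
    (Primrec.list_length.comp hv)
    ((pp_forall_lt (p := fun (a : α × ℕ) j => cd (u a.1) j = cd (v a.1) j) Primrec.snd
      (Primrec.eq.comp (primrec_cd (hu.comp (Primrec.fst.comp Primrec.fst)) Primrec.snd)
        (primrec_cd (hv.comp (Primrec.fst.comp Primrec.fst)) Primrec.snd))).and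
      (Primrec.nat_lt.comp (primrec_cd (hu.comp Primrec.fst) Primrec.snd)
        (primrec_cd (hv.comp Primrec.fst) Primrec.snd)))).of_eq fun _ => (lt_iff_cd _ _).symm

theorem pp_Rep (hl : Primrec l) (hu : Primrec u) : PrimrecPred fun a => Rep (l a) (u a) := by
  have h1 : Primrec fun x : α × ℕ => (u x.1).length :=
    Primrec.list_length.comp (hu.comp Primrec.fst)
  have h2 : Primrec fun x : α × ℕ => (wd x.2).length :=
    Primrec.list_length.comp (primrec_wd.comp Primrec.snd)
  exact ((pp_D hl hu).and (pp_forall_lt (p := fun a c => wd c ∈ cls (l a) (u a) →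
    (u a).length ≤ (wd c).length ∧ ((wd c).length ≤ (u a).length → ¬ wd c < u a))
    (primrec_cb hl (Primrec.list_length.comp hu))
    (pp_imp (pp_cls (hl.comp Primrec.fst) (hu.comp Primrec.fst) (primrec_wd.comp Primrec.snd))
      ((Primrec.nat_le.comp h1 h2).and (pp_imp (Primrec.nat_le.comp h2 h1)
        (pp_lt (primrec_wd.comp Primrec.snd) (hu.comp Primrec.fst)).not))))).of_eq
    fun a => (rep_iff_bdd _ _).symm

theorem primrec_ncard (hl : Primrec l) (hu : Primrec u) :
    Primrec fun a => (cls (l a) (u a)).ncard := by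
  classical
  have ht : Primrec fun a => tw (KK (l a)) 3 := primrec_tw (primrec_KK hl) (Primrec.const 3)
  have hb : Primrec fun a => cb (l a) ((u a).length + 2 * tw (KK (l a)) 3 + 2) :=
    primrec_cb hl (Primrec.nat_add.comp (Primrec.nat_add.comp (Primrec.list_length.comp hu)
      (Primrec.nat_mul.comp (Primrec.const 2) ht)) (Primrec.const 2))
  refine (Primrec.ite (pp_exists_lt (p := fun a c => wd c ∈ cls (l a) (u a) ∧
      (u a).length + tw (KK (l a)) 3 + 1 ≤ (wd c).length) hb
      ((pp_cls (hl.comp Primrec.fst) (hu.comp Primrec.fst) (primrec_wd.comp Primrec.snd)).and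
        (Primrec.nat_le.comp (Primrec.succ.comp (Primrec.nat_add.comp
          (Primrec.list_length.comp (hu.comp Primrec.fst)) (ht.comp Primrec.fst)))
          (Primrec.list_length.comp (primrec_wd.comp Primrec.snd)))))
    (Primrec.const 0)
    (primrec_cnt (p := fun a y => y ∈ cls (l a) (u a)) hb
      (pp_cls (hl.comp Primrec.fst) (hu.comp Primrec.fst) Primrec.snd))).of_eq
    fun a => (ncard_cls _ _).symm

theorem pp_TT (hl : Primrec l) (hn : Primrec n) (hu : Primrec u) :
    PrimrecPred fun a => u a ∈ TT (l a) (n a) :=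
  (pp_Rep hl hu).and (Primrec.eq.comp (primrec_ncard hl hu) hn)

/-- the decidable form of: at least `k` classes of size `n` -/
def Ge (l : LP) (n k : ℕ) : Prop :=
  k ≤ cnt (cb l (k * (tw (KK l) (8 * n + 12) + 2))) (· ∈ TT l n)

theorem pp_Ge (hl : Primrec l) (hn : Primrec n) (hm : Primrec m) :
    PrimrecPred fun a => Ge (l a) (n a) (m a) :=
  Primrec.nat_le.comp hm (primrec_cnt (p := fun a y => y ∈ TT (l a) (n a))
    (primrec_cb hl (Primrec.nat_mul.comp hm (Primrec.nat_add.comp (primrec_tw (primrec_KK hl)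
      (Primrec.nat_add.comp (Primrec.nat_mul.comp (Primrec.const 8) hn) (Primrec.const 12)))
      (Primrec.const 2))))
    (pp_TT (hl.comp Primrec.fst) (hn.comp Primrec.fst) Primrec.snd))

end preds

theorem iso_iff_Ge {l l' : LP} (h : Good l) (h' : Good l') :
    Iso l l' ↔ ∀ n k, (Ge l n k ↔ Ge l' n k) := by
  rw [iso_iff h h']
  refine forall_congr' fun n => ?_
  rw [enat_eq_iff]
  refine forall_congr' fun k => ?_
  rw [le_classes_iff l h, le_classes_iff l' h']
  rfl

end Pool.Agent.H866Z.AE
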