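import Mathlib
import Pool.Agent.H866Z.AE.Prim

set_option autoImplicit false

open Set

namespace Pool.Agent.H866Z.AE

theorem exists_approx {R : ℕ → ℕ → Prop} {P : ℕ × ℕ × ℕ → Prop} (hP : ComputablePred P)
    (h : ∀ x y, R x y ↔ ∀ t, P (x, y, t)) :
    ∃ Ap : ℕ → ℕ → ℕ → Prop, PrimrecPred (fun z : ℕ × ℕ × ℕ => Ap z.1 z.2.1 z.2.2) ∧
      (∀ x y s s', s ≤ s' → Ap x y s' → Ap x y s) ∧ ∀ x y, R x y ↔ ∀ s, Ap x y s := by
  classical
  obtain ⟨f, hf, rfl⟩ := ComputablePred.computable_iff.1 hP
  obtain ⟨c, hc⟩ := Nat.Partrec.Code.exists_code.1 hf.partrec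
  have hev : ∀ a : ℕ × ℕ × ℕ, c.eval (Encodable.encode a) = Part.some (Encodable.encode (f a)) := by
    intro a
    rw [hc]
    simp only [Encodable.encodek, Part.coe_some, Part.bind_some, PFun.coe_val, Part.map_some]
  refine ⟨fun x y s => ∀ t < s,
    ¬ c.evaln s (Encodable.encode (x, y, t)) = some (Encodable.encode false), ?_, ?_, ?_⟩
  · refine pp_forall_lt (p := fun (z : ℕ × ℕ × ℕ) t =>
      ¬ c.evaln z.2.2 (Encodable.encode (z.1, z.2.1, t)) = some (Encodable.encode false))
      (Primrec.snd.comp Primrec.snd) (PrimrecPred.not (Primrec.eq.comp ?_ (Primrec.const _)))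
    exact Nat.Partrec.Code.primrec_evaln.comp (Primrec.pair (Primrec.pair
      (Primrec.snd.comp (Primrec.snd.comp Primrec.fst)) (Primrec.const c))
      (Primrec.encode.comp (Primrec.pair (Primrec.fst.comp Primrec.fst)
        (Primrec.pair (Primrec.fst.comp (Primrec.snd.comp Primrec.fst)) Primrec.snd))))
  · intro x y s s' hs H t ht e
    exact H t (lt_of_lt_of_le ht hs) (Nat.Partrec.Code.evaln_mono hs e)
  · intro x y
    rw [h]
    constructor
    · intro H s t _ e
      have := Nat.Partrec.Code.evaln_sound e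
      rw [hev, Part.mem_some_iff] at this
      have h2 := Encodable.encode_injective this
      rw [H t] at h2
      exact Bool.false_ne_true h2
    · intro H t
      by_contra hc'
      have h1 : f (x, y, t) = false := by simpa using hc'
      have h2 : Encodable.encode false ∈ c.eval (Encodable.encode (x, y, t)) := by
        rw [hev, h1]
        exact Part.mem_some _
      obtain ⟨k, hk⟩ := Nat.Partrec.Code.evaln_complete.1 h2
      exact H (max k (t + 1)) t (by omega) (Nat.Partrec.Code.evaln_mono (le_max_left _ _) hk)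

theorem iterate_stable {f : ℕ → ℕ} (hf : ∀ y, f y ≤ y) (x : ℕ) :
    ∀ n, x ≤ n → f^[n] x = f^[x] x := by
  induction x using Nat.strong_induction_on with
  | _ x ih =>
    intro n hn
    rcases (hf x).lt_or_eq with h | h
    · obtain ⟨m, rfl⟩ : ∃ m, x = m + 1 := ⟨x - 1, by omega⟩
      obtain ⟨k, rfl⟩ : ∃ k, n = k + 1 := ⟨n - 1, by omega⟩
      rw [Function.iterate_succ_apply, Function.iterate_succ_apply, ih _ h k (by omega),
        ih _ h m (by omega)]
    · rw [Function.iterate_fixed h, Function.iterate_fixed h]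

theorem iterate_eq_rec (f : ℕ → ℕ) (x n : ℕ) :
    f^[n] x = Nat.rec x (fun _ IH => f IH) n := by
  induction n with
  | zero => rfl
  | succ n ih => rw [Function.iterate_succ_apply', ih]

theorem exists_beta {R : ℕ → ℕ → Prop} (hR : Equivalence R) {P : ℕ × ℕ × ℕ → Prop}
    (hP : ComputablePred P) (h : ∀ x y, R x y ↔ ∀ t, P (x, y, t)) :
    ∃ β : ℕ → ℕ → Bool, Computable₂ β ∧ ∀ x y, R x y ↔ ∀ s, β x s = β y s := by
  classical
  obtain ⟨Ap, hAp, hmono, hlim⟩ := exists_approx hP h
  have hAp' : ∀ {α : Type} [Primcodable α] {f g k : α → ℕ}, Primrec f → Primrec g → Primrec k →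
      PrimrecPred fun a => Ap (f a) (g a) (k a) := fun hf hg hk =>
    hAp.comp (Primrec.pair hf (Primrec.pair hg hk))
  let Eqv : ℕ → ℕ → Prop := fun m s => m ≤ s ∧ ∀ a < m + 1, ∀ b < m + 1, ∀ c < m + 1,
    (Ap a b s → Ap b a s) ∧ (Ap a b s → Ap b c s → Ap a c s)
  have hEqv : PrimrecPred fun z : ℕ × ℕ => Eqv z.1 z.2 := by
    refine (Primrec.nat_le.comp Primrec.fst Primrec.snd).and ?_
    refine pp_forall_lt (p := fun (z : ℕ × ℕ) a => ∀ b < z.1 + 1, ∀ c < z.1 + 1,
      (Ap a b z.2 → Ap b a z.2) ∧ (Ap a b z.2 → Ap b c z.2 → Ap a c z.2))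
      (Primrec.succ.comp Primrec.fst) ?_
    refine pp_forall_lt (p := fun (z : (ℕ × ℕ) × ℕ) b => ∀ c < z.1.1 + 1,
      (Ap z.2 b z.1.2 → Ap b z.2 z.1.2) ∧ (Ap z.2 b z.1.2 → Ap b c z.1.2 → Ap z.2 c z.1.2))
      (Primrec.succ.comp (Primrec.fst.comp Primrec.fst)) ?_
    refine pp_forall_lt (p := fun (z : ((ℕ × ℕ) × ℕ) × ℕ) c =>
      (Ap z.1.2 z.2 z.1.1.2 → Ap z.2 z.1.2 z.1.1.2) ∧
        (Ap z.1.2 z.2 z.1.1.2 → Ap z.2 c z.1.1.2 → Ap z.1.2 c z.1.1.2))
      (Primrec.succ.comp (Primrec.fst.comp (Primrec.fst.comp Primrec.fst))) ?_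
    have a1 : Primrec fun z : (((ℕ × ℕ) × ℕ) × ℕ) × ℕ => z.1.1.2 :=
      Primrec.snd.comp (Primrec.fst.comp Primrec.fst)
    have a2 : Primrec fun z : (((ℕ × ℕ) × ℕ) × ℕ) × ℕ => z.1.2 := Primrec.snd.comp Primrec.fst
    have a3 : Primrec fun z : (((ℕ × ℕ) × ℕ) × ℕ) × ℕ => z.2 := Primrec.snd
    have a4 : Primrec fun z : (((ℕ × ℕ) × ℕ) × ℕ) × ℕ => z.1.1.1.2 :=
      Primrec.snd.comp (Primrec.fst.comp (Primrec.fst.comp Primrec.fst))
    exact (pp_imp (hAp' a1 a2 a4) (hAp' a2 a1 a4)).and
      (pp_imp (hAp' a1 a2 a4) (pp_imp (hAp' a2 a3 a4) (hAp' a1 a3 a4)))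
  have hex : ∀ m, ∃ s, Eqv m s := by
    intro m
    have h1 : ∀ z : ℕ × ℕ, ∃ s, ∀ s', s ≤ s' → Ap z.1 z.2 s' → R z.1 z.2 := by
      intro z
      by_cases hz : R z.1 z.2
      · exact ⟨0, fun _ _ _ => hz⟩
      · rw [hlim] at hz
        push Not at hz
        obtain ⟨s, hs⟩ := hz
        exact ⟨s, fun s' h1 h2 => absurd (hmono _ _ _ _ h1 h2) hs⟩
    choose g hg using h1
    obtain ⟨B, hB⟩ := ((Finset.range (m + 1) ×ˢ Finset.range (m + 1)).image g).bddAbove
    have hB' : ∀ a < m + 1, ∀ b < m + 1, Ap a b (max m B) → R a b := fun a ha b hb =>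
      hg (a, b) _ (le_max_of_le_right (hB (by
        simp only [Finset.coe_image, mem_image]
        exact ⟨(a, b), by simp [ha, hb], rfl⟩)))
    refine ⟨max m B, le_max_left _ _, fun a ha b hb c hc => ⟨fun H => ?_, fun H H' => ?_⟩⟩
    · exact (hlim _ _).1 (hR.symm (hB' a ha b hb H)) _
    · exact (hlim _ _).1 (hR.trans (hB' a ha b hb H) (hB' b hb c hc H')) _
  let sg : ℕ → ℕ := fun m => Nat.find (hex m)
  have hsg : Computable sg := Computable.find hEqv.computablePred hex
  have hsg1 : ∀ m, Eqv m (sg m) := fun m => Nat.find_spec (hex m)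
  have hsg2 : ∀ m m', m ≤ m' → sg m ≤ sg m' := fun m m' hm => Nat.find_min' (hex m)
    ⟨hm.trans (hsg1 m').1, fun a ha b hb c hc => (hsg1 m').2 a (by omega) b (by omega) c (by omega)⟩
  have hsym : ∀ m a b, a ≤ m → b ≤ m → Ap a b (sg m) → Ap b a (sg m) := fun m a b ha hb =>
    ((hsg1 m).2 a (by omega) b (by omega) a (by omega)).1
  have htr : ∀ m a b c, a ≤ m → b ≤ m → c ≤ m → Ap a b (sg m) → Ap b c (sg m) → Ap a c (sg m) :=
    fun m a b c ha hb hc => ((hsg1 m).2 a (by omega) b (by omega) c (by omega)).2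
  have hrefl : ∀ a s, Ap a a s := fun a s => (hlim _ _).1 (hR.refl a) s
  have hex2 : ∀ x, ∃ y, Ap y x (sg x) := fun x => ⟨x, hrefl _ _⟩
  let ρ : ℕ → ℕ := fun x => Nat.find (hex2 x)
  have hApc : ∀ {α : Type} [Primcodable α] {f g k : α → ℕ}, Computable f → Computable g →
      Computable k → Computable fun a => decide (Ap (f a) (g a) (k a)) := fun hf hg hk =>
    hAp.computablePred.decide.comp (hf.pair (hg.pair hk))
  have hρ : Computable ρ := Computable.find (P := fun x y => Ap y x (sg x))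
    (Computable.computablePred (hApc Computable.snd Computable.fst (hsg.comp Computable.fst))) hex2
  have hρ1 : ∀ x, Ap (ρ x) x (sg x) := fun x => Nat.find_spec (hex2 x)
  have hρ2 : ∀ x y, Ap y x (sg x) → ρ x ≤ y := fun x y hy => Nat.find_min' (hex2 x) hy
  let step : ℕ → ℕ → ℕ := fun t y => if y ≤ t then y else ρ y
  have hstep : ∀ t y, step t y ≤ y := by
    intro t y
    simp only [step]
    split_ifs
    · exact le_rfl
    · exact hρ2 _ _ (hrefl _ _)
  let dd : ℕ → ℕ → ℕ := fun t x => (step t)^[x] x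
  have hdd1 : ∀ t x, x ≤ t → dd t x = x := fun t x hx =>
    Function.iterate_fixed (by simp [step, hx]) _
  have hdd2 : ∀ t x, t < x → ρ x < x → dd t x = dd t (ρ x) := by
    intro t x hx hlt
    obtain ⟨m, rfl⟩ : ∃ m, x = m + 1 := ⟨x - 1, by omega⟩
    simp only [dd]
    rw [Function.iterate_succ_apply]
    have : step t (m + 1) = ρ (m + 1) := by simp [step, not_le.2 hx]
    rw [this]
    exact iterate_stable (hstep t) _ m (by omega)
  have hddc : Computable₂ dd := by
    have h1 : Computable fun z : ℕ × ℕ => step z.1 z.2 :=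
      (Computable.cond ((Primrec.nat_le.comp Primrec.snd Primrec.fst).computablePred.decide)
        Computable.snd (hρ.comp Computable.snd)).of_eq fun z => by simp [step]
    exact (Computable.nat_rec (f := fun z : ℕ × ℕ => z.2) (g := fun z : ℕ × ℕ => z.2)
      (h := fun (z : ℕ × ℕ) (y : ℕ × ℕ) => step z.1 y.2) Computable.snd Computable.snd
      (h1.comp ((Computable.fst.comp Computable.fst).pair
        (Computable.snd.comp Computable.snd)))).of_eq fun z => (iterate_eq_rec _ _ _).symm
  have key : ∀ t k a b m, a + b = k → a ≤ m → b ≤ m → t ≤ m → Ap a b (sg m) →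
      dd t a = dd t b ∨ (dd t a ≤ t ∧ dd t b ≤ t ∧ Ap (dd t a) (dd t b) (sg t)) := by
    intro t k
    induction k using Nat.strong_induction_on with
    | _ k ih =>
      intro a b m hk ha hb ht hab
      rcases lt_trichotomy a b with hlt | rfl | hlt
      · by_cases hbt : b ≤ t
        · rw [hdd1 t a (by omega), hdd1 t b hbt]
          exact Or.inr ⟨by omega, hbt, hmono _ _ _ _ (hsg2 _ _ ht) hab⟩
        · have h1 : Ap a b (sg b) := hmono _ _ _ _ (hsg2 _ _ hb) hab
          have h2 := hρ2 _ _ h1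
          rw [hdd2 t b (by omega) (by omega)]
          exact ih (a + ρ b) (by omega) a (ρ b) b rfl (by omega) (by omega) (by omega)
            (htr b a b (ρ b) (by omega) le_rfl (by omega) h1
              (hsym b _ _ (by omega) le_rfl (hρ1 b)))
      · exact Or.inl rfl
      · by_cases hat : a ≤ t
        · rw [hdd1 t a hat, hdd1 t b (by omega)]
          exact Or.inr ⟨hat, by omega, hmono _ _ _ _ (hsg2 _ _ ht) hab⟩
        · have h1 : Ap a b (sg a) := hmono _ _ _ _ (hsg2 _ _ ha) hab
          have h2 := hρ2 _ _ (hsym a _ _ le_rfl (by omega) h1)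
          rw [hdd2 t a (by omega) (by omega)]
          exact ih (ρ a + b) (by omega) (ρ a) b a rfl (by omega) (by omega) (by omega)
            (htr a (ρ a) a b (by omega) le_rfl (by omega) (hρ1 a) h1)
  refine ⟨fun x s => decide (dd s.unpair.1 x ≤ s.unpair.1) && decide (s.unpair.2 ≤ s.unpair.1) &&
    decide (Ap s.unpair.2 (dd s.unpair.1 x) (sg s.unpair.1)), ?_, fun x y => ⟨fun H s => ?_,
      fun H => ?_⟩⟩
  · have u1 : Computable fun z : ℕ × ℕ => z.2.unpair.1 :=
      Computable.fst.comp (Computable.unpair.comp Computable.snd)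
    have u2 : Computable fun z : ℕ × ℕ => z.2.unpair.2 :=
      Computable.snd.comp (Computable.unpair.comp Computable.snd)
    have u3 : Computable fun z : ℕ × ℕ => dd z.2.unpair.1 z.1 := hddc.comp u1 Computable.fst
    have hle : Computable₂ fun a b : ℕ => decide (a ≤ b) :=
      (Primrec.nat_le.comp Primrec.fst Primrec.snd).computablePred.decide
    have hand : Computable₂ fun a b : Bool => a && b := Primrec.and.to_comp
    exact hand.comp (hand.comp (hle.comp u3 u1) (hle.comp u2 u1)) (hApc u2 u3 (hsg.comp u1))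
  · beta_reduce
    generalize s.unpair.1 = t
    generalize s.unpair.2 = z
    rcases key t _ x y (max t (max x y)) rfl (by omega) (by omega) (by omega)
      ((hlim _ _).1 H _) with e | ⟨h1, h2, h3⟩
    · rw [e]
    · by_cases hz : z ≤ t
      · have : Ap z (dd t x) (sg t) ↔ Ap z (dd t y) (sg t) :=
          ⟨fun H' => htr t _ _ _ hz h1 h2 H' h3, fun H' => htr t _ _ _ hz h2 h1 H'
            (hsym t _ _ h1 h2 h3)⟩
        simp [h1, h2, hz, this]
      · simp [hz]
  · rw [hlim]
    intro s
    have := H (Nat.pair (max s (max x y)) x)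
    simp only [Nat.unpair_pair] at this
    rw [hdd1 _ x (by omega), hdd1 _ y (by omega)] at this
    have h1 : x ≤ max s (max x y) := by omega
    have h2 : y ≤ max s (max x y) := by omega
    simp only [h1, h2, hrefl, decide_true, Bool.and_self, Bool.true_and] at this
    have h3 : Ap x y (sg (max s (max x y))) := by simpa using this.symm
    exact hmono _ _ _ _ (le_trans (le_max_left _ _) (hsg1 _).1) h3

theorem computable_range_map {α β : Type} [Primcodable α] [Primcodable β] {f : α → ℕ}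
    {g : α → ℕ → β} (hf : Computable f) (hg : Computable₂ g) :
    Computable fun a => (List.range (f a)).map (g a) :=
  (Computable.nat_rec (f := f) (g := fun _ => ([] : List β))
    (h := fun a (y : ℕ × List β) => y.2 ++ [g a y.1]) hf (Computable.const _)
    (Computable.list_concat.comp (Computable.snd.comp Computable.snd)
      (hg.comp Computable.fst (Computable.fst.comp Computable.snd)))).of_eq fun a => by
    induction f a with
    | zero => rfl
    | succ n ih => simp only [List.range_succ, List.map_append, List.map_cons, List.map_nil, ← ih]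

end Pool.Agent.H866Z.AE
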