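import Mathlib
import Pool.Agent.H866Z.AE.Prim

set_option autoImplicit false

open Set

namespace Pool.Agent.H866Z.AE

abbrev FP : Type :=
  (Finset (ℕ × ℕ × ℕ) × ℕ × Finset ℕ) × (Finset (ℕ × (Option ℕ × Option ℕ) × ℕ) × ℕ × Finset ℕ)

def toP (l : LP) : FP :=
  ((l.1.1.toFinset, l.1.2.1, l.1.2.2.toFinset), (l.2.1.toFinset, l.2.2.1, l.2.2.2.toFinset))

def ND (l : LP) : Prop := l.1.1.Nodup ∧ l.1.2.2.Nodup ∧ l.2.1.Nodup ∧ l.2.2.2.Nodup

theorem decode_finset_aux {α : Type} [Encodable α] (n : ℕ) (s : Finset α) :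
    (Encodable.decode n : Option (Finset α)) = some s ↔
      ∃ L : List α, Encodable.decode n = some L ∧ (L : Multiset α) = s.val := by
  let _ : DecidableEq α := Encodable.decidableEqOfEncodable α
  unfold Finset.encodable
  rw [Encodable.decode_ofEquiv]
  show Option.map _ (Encodable.decodeSubtype n) = _ ↔ _
  unfold Encodable.decodeSubtype
  show Option.map _ (Option.bind (decodeMultiset n) _) = _ ↔ _
  unfold decodeMultiset
  cases (Encodable.decode n : Option (List α)) with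
  | none => simp
  | some L =>
    simp only [Option.map_eq_map, Option.map_some, Option.bind_some]
    split_ifs with h
    · simp only [Option.map_some, Option.some.injEq, exists_eq_left']
      exact ⟨fun e => congrArg Finset.val e, fun e => Finset.val_injective e⟩
    · simp only [Option.map_none, Option.some.injEq, exists_eq_left']
      refine ⟨fun e => by simp at e, fun e => absurd (e ▸ s.nodup) h⟩

theorem decode_finset {α : Type} [Encodable α] [DecidableEq α] (n : ℕ) (s : Finset α) :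
    Encodable.decode n = some s ↔
      ∃ L : List α, Encodable.decode n = some L ∧ L.Nodup ∧ s = L.toFinset := by
  rw [decode_finset_aux]
  refine exists_congr fun L => and_congr_right fun _ => ⟨fun e => ?_, ?_⟩
  · have h : L.Nodup := by
      have := s.nodup
      rw [← e] at this
      exact this
    refine ⟨h, ?_⟩
    rw [← List.toFinset_eq h]
    exact Finset.val_injective e.symm
  · rintro ⟨h, rfl⟩
    rw [← List.toFinset_eq h]

theorem decode_prod {α β : Type} [Encodable α] [Encodable β] (n : ℕ) (x : α × β) :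
    Encodable.decode n = some x ↔
      Encodable.decode n.unpair.1 = some x.1 ∧ Encodable.decode n.unpair.2 = some x.2 := by
  rw [Encodable.decode_prod_val]
  cases (Encodable.decode n.unpair.1 : Option α) <;>
    cases (Encodable.decode n.unpair.2 : Option β) <;> simp [Prod.ext_iff]

/-- decoding at the level of lists -/
def dl (n : ℕ) : Option LP := @Encodable.decode LP Primcodable.toEncodable n

theorem primrec_dl : Primrec dl := Primrec.decode

theorem dl_eq (n : ℕ) : dl n = Encodable.decode n := rfl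

theorem decode_FP (n : ℕ) (p : FP) :
    Encodable.decode n = some p ↔ ∃ l, dl n = some l ∧ ND l ∧ p = toP l := by
  simp only [dl_eq, decode_prod, decode_finset]
  constructor
  · rintro ⟨⟨⟨L1, a1, a2, a3⟩, b, L2, c1, c2, c3⟩, ⟨L3, d1, d2, d3⟩, e, L4, f1, f2, f3⟩
    refine ⟨((L1, p.1.2.1, L2), (L3, p.2.2.1, L4)), ⟨⟨a1, b, c1⟩, d1, e, f1⟩, ⟨a2, c2, d2, f2⟩, ?_⟩
    simp only [toP, ← a3, ← c3, ← d3, ← f3]
  · rintro ⟨l, ⟨⟨a1, b, c1⟩, d1, e, f1⟩, ⟨a2, c2, d2, f2⟩, rfl⟩
    exact ⟨⟨⟨_, a1, a2, rfl⟩, b, _, c1, c2, rfl⟩, ⟨_, d1, d2, rfl⟩, e, _, f1, f2, rfl⟩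

theorem pp_nodup {α β : Type} [Primcodable α] [Primcodable β] {f : α → List β} (hf : Primrec f) :
    PrimrecPred fun a => (f a).Nodup :=
  (pp_forall_lt (p := fun a j => ∀ i < j, ¬ (f a)[i]? = (f a)[j]?) (Primrec.list_length.comp hf)
    (pp_forall_lt (p := fun (a : α × ℕ) i => ¬ (f a.1)[i]? = (f a.1)[a.2]?) Primrec.snd
      (Primrec.eq.comp
        (Primrec.list_getElem?.comp (hf.comp (Primrec.fst.comp Primrec.fst)) Primrec.snd)
        (Primrec.list_getElem?.comp (hf.comp (Primrec.fst.comp Primrec.fst))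
          (Primrec.snd.comp Primrec.fst))).not)).of_eq fun a => by
    rw [List.nodup_iff_getElem?_ne_getElem?]
    exact ⟨fun h i j h1 h2 => h j h2 i h1, fun h j h2 i h1 => h i j h1 h2⟩

/-- the presentation with a given index -/
def LL (n : ℕ) : LP := (dl n).getD (([], 0, []), ([], 0, []))

theorem primrec_LL : Primrec LL := Primrec.option_getD.comp primrec_dl (Primrec.const _)

/-- good indices -/
def GN (n : ℕ) : Prop := dl n = some (LL n) ∧ ND (LL n) ∧ Good (LL n)

theorem pp_GN : PrimrecPred GN :=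
  (Primrec.eq.comp primrec_dl (Primrec.option_some.comp primrec_LL)).and
    (((pp_nodup (Primrec.fst.comp (Primrec.fst.comp primrec_LL))).and
      ((pp_nodup (Primrec.snd.comp (Primrec.snd.comp (Primrec.fst.comp primrec_LL)))).and
        ((pp_nodup (Primrec.fst.comp (Primrec.snd.comp primrec_LL))).and
          (pp_nodup (Primrec.snd.comp (Primrec.snd.comp (Primrec.snd.comp primrec_LL))))))).and
      (pp_Good primrec_LL))

/-- the isomorphism relation on indices -/
def EE (n m : ℕ) : Prop := (¬ GN n ∧ ¬ GN m) ∨ (GN n ∧ GN m ∧ Iso (LL n) (LL m))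

theorem EE_pi : ∃ P : ℕ × ℕ × ℕ → Prop, ComputablePred P ∧ ∀ x y, EE x y ↔ ∀ t, P (x, y, t) := by
  refine ⟨fun z => (¬ GN z.1 ∧ ¬ GN z.2.1) ∨ (GN z.1 ∧ GN z.2.1 ∧
    (Ge (LL z.1) z.2.2.unpair.1 z.2.2.unpair.2 ↔ Ge (LL z.2.1) z.2.2.unpair.1 z.2.2.unpair.2)),
    PrimrecPred.computablePred ?_, fun x y => ?_⟩
  · have h1 : PrimrecPred fun z : ℕ × ℕ × ℕ => GN z.1 := pp_GN.comp Primrec.fst
    have h2 : PrimrecPred fun z : ℕ × ℕ × ℕ => GN z.2.1 :=
      pp_GN.comp (Primrec.fst.comp Primrec.snd)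
    have h3 : Primrec fun z : ℕ × ℕ × ℕ => z.2.2.unpair :=
      Primrec.unpair.comp (Primrec.snd.comp Primrec.snd)
    exact (h1.not.and h2.not).or (h1.and (h2.and (pp_iff
      (pp_Ge (primrec_LL.comp Primrec.fst) (Primrec.fst.comp h3) (Primrec.snd.comp h3))
      (pp_Ge (primrec_LL.comp (Primrec.fst.comp Primrec.snd)) (Primrec.fst.comp h3)
        (Primrec.snd.comp h3)))))
  · unfold EE
    by_cases hx : GN x <;> by_cases hy : GN y <;> simp only [hx, hy, not_true, not_false_iff,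
      true_and, false_and, and_false, and_true, false_or, or_false, forall_const]
    rw [iso_iff_Ge hx.2.2 hy.2.2]
    exact ⟨fun h t => h _ _, fun h n k => by simpa using h (Nat.pair n k)⟩

theorem GN_encode {l : LP} (h1 : ND l) (h2 : Good l) :
    GN (@Encodable.encode LP Primcodable.toEncodable l) ∧
      LL (@Encodable.encode LP Primcodable.toEncodable l) = l := by
  have e : dl (@Encodable.encode LP Primcodable.toEncodable l) = some l := Encodable.encodek l
  have e2 : LL (@Encodable.encode LP Primcodable.toEncodable l) = l := by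
    unfold LL
    rw [e]
    rfl
  exact ⟨⟨by rw [e, e2], by rwa [e2], by rwa [e2]⟩, e2⟩

theorem nfa_toFinset {α : Type} [DecidableEq α] (t : List (ℕ × α × ℕ) × ℕ × List ℕ) :
    (⟨fun q a => {q' | (q, a, q') ∈ t.1.toFinset}, {t.2.1}, (t.2.2.toFinset : Set ℕ)⟩ : NFA α ℕ)
      = nfa t := by
  simp [nfa]

theorem E_eq_EE (Dom : FP → Set (List ℕ)) (Rel : FP → List ℕ → List ℕ → Prop) (Gd : FP → Prop)
    (E : ℕ → ℕ → Prop)
    (hD : ∀ p w, w ∈ Dom p ↔ w ∈ (⟨fun q a => {q' | (q, a, q') ∈ p.1.1}, {p.1.2.1},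
      (p.1.2.2 : Set ℕ)⟩ : NFA ℕ ℕ).accepts)
    (hR : ∀ p (u v : List ℕ), Rel p u v ↔
      (List.map (fun i => (u[i]?, v[i]?)) (List.range (max u.length v.length))) ∈
        (⟨fun q a => {q' | (q, a, q') ∈ p.2.1}, {p.2.2.1}, (p.2.2.2 : Set ℕ)⟩ :
          NFA (Option ℕ × Option ℕ) ℕ).accepts)
    (hG : ∀ p, Gd p ↔
      ((∀ u ∈ Dom p, Rel p u u) ∧
       (∀ u ∈ Dom p, ∀ v ∈ Dom p, Rel p u v → Rel p v u) ∧
       (∀ u ∈ Dom p, ∀ v ∈ Dom p, ∀ w ∈ Dom p, Rel p u v → Rel p v w → Rel p u w)))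
    (hE : ∀ n m : ℕ, E n m ↔
      (((¬ ∃ p : FP, Encodable.decode n = some p ∧ Gd p) ∧
        (¬ ∃ q : FP, Encodable.decode m = some q ∧ Gd q)) ∨
       ∃ p q : FP, Encodable.decode n = some p ∧ Encodable.decode m = some q ∧ Gd p ∧ Gd q ∧
         ∃ f : List ℕ → List ℕ, Set.BijOn f (Dom p) (Dom q) ∧
           ∀ u ∈ Dom p, ∀ v ∈ Dom p, (Rel p u v ↔ Rel q (f u) (f v)))) (n m : ℕ) :
    E n m ↔ EE n m := by
  have h1 : ∀ l, Dom (toP l) = {w | D l w} := by
    intro l
    ext w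
    rw [hD]
    exact Iff.of_eq (congrArg (fun M : NFA ℕ ℕ => w ∈ M.accepts) (nfa_toFinset l.1))
  have h2 : ∀ l u v, Rel (toP l) u v ↔ R l u v := by
    intro l u v
    rw [hR]
    exact Iff.of_eq (congrArg (fun M : NFA (Option ℕ × Option ℕ) ℕ => conv u v ∈ M.accepts)
      (nfa_toFinset l.2))
  have h3 : ∀ l, Gd (toP l) ↔ Good l := by
    intro l
    rw [hG]
    simp only [h1, h2]
    rfl
  have h4 : ∀ (k : ℕ) (p : FP), Encodable.decode k = some p ∧ Gd p ↔ GN k ∧ p = toP (LL k) := by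
    intro k p
    rw [decode_FP]
    constructor
    · rintro ⟨⟨l, a, b, rfl⟩, c⟩
      have : LL k = l := by
        unfold LL
        rw [a]
        rfl
      exact ⟨⟨by rw [a, this], by rwa [this], by rw [this]; exact (h3 l).1 c⟩, by rw [this]⟩
    · rintro ⟨⟨a, b, c⟩, rfl⟩
      exact ⟨⟨_, a, b, rfl⟩, (h3 _).2 c⟩
  rw [hE]
  unfold EE
  refine or_congr (by simp only [h4]; simp) ⟨?_, ?_⟩
  · rintro ⟨p, q, a, b, c, d, f, e1, e2⟩
    obtain ⟨g1, rfl⟩ := (h4 n p).1 ⟨a, c⟩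
    obtain ⟨g2, rfl⟩ := (h4 m q).1 ⟨b, d⟩
    simp only [h1, h2] at e1 e2
    exact ⟨g1, g2, f, e1, e2⟩
  · rintro ⟨g1, g2, f, e1, e2⟩
    obtain ⟨a, c⟩ := (h4 n _).2 ⟨g1, rfl⟩
    obtain ⟨b, d⟩ := (h4 m _).2 ⟨g2, rfl⟩
    refine ⟨_, _, a, b, c, d, f, ?_, ?_⟩
    · simpa only [h1] using e1
    · simp only [h1, h2]
      exact e2

end Pool.Agent.H866Z.AE
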