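import Mathlib
import Pool.Agent.H866Z.AE.Aut
import Pool.Agent.H866Z.AE.Beta
import Pool.Agent.H866Z.AE.Code
import Pool.Agent.Helper844.DPRM

set_option autoImplicit false

open Set

namespace Pool.Agent.H866Z.AE

theorem val_eq_foldr (l : List Bool) : val l = l.foldr (fun b s => b.toNat + 2 * s) 0 := by
  induction l with
  | nil => rfl
  | cons b l ih => rw [val, ih]; rfl

theorem primrec_val : Primrec val :=
  (Primrec.list_foldr (f := fun l : List Bool => l) (g := fun _ => 0)
    (h := fun _ (y : Bool × ℕ) => y.1.toNat + 2 * y.2) Primrec.id (Primrec.const _)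
    (Primrec.nat_add.comp ((Primrec.dom_finite Bool.toNat).comp (Primrec.fst.comp Primrec.snd))
      (Primrec.nat_mul.comp (Primrec.const 2) (Primrec.snd.comp Primrec.snd)))).of_eq
    fun l => (val_eq_foldr l).symm

/-- the column code -/
def zfun (β : ℕ → ℕ → Bool) (s : ℕ) : ℕ := val ((List.range s).map (fun i => β i s) ++ [true])

theorem testBit_zfun (β : ℕ → ℕ → Bool) (s i : ℕ) :
    (zfun β s).testBit i = if i < s then β i s else decide (i = s) := by
  unfold zfun
  rw [testBit_val]
  rcases lt_trichotomy i s with h | rfl | h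
  · simp [List.getD, List.getElem?_append_left, h]
  · simp [List.getD]
  · rw [if_neg (by omega), List.getD, List.getElem?_eq_none (by simp; omega)]
    simp [h.ne']

theorem lt_zfun (β : ℕ → ℕ → Bool) (s : ℕ) : s < zfun β s :=
  lt_of_lt_of_le Nat.lt_two_pow_self (Nat.ge_two_pow_of_testBit (by simp [testBit_zfun]))

theorem re_zfun {β : ℕ → ℕ → Bool} (hβ : Computable₂ β) : REPred fun z => ∃ s, zfun β s = z := by
  have h1 : Computable (zfun β) := primrec_val.to_comp.comp (Computable.list_concat.comp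
    (computable_range_map (g := fun s i => β i s) Computable.id
      (hβ.comp Computable.snd Computable.fst)) (Computable.const true))
  have h2 : Computable fun z : ℕ => (List.range z).map (zfun β) :=
    computable_range_map (g := fun _ s => zfun β s) Computable.id (h1.comp Computable.snd)
  have h3 : PrimrecPred fun x : List ℕ × ℕ => x.2 ∈ x.1 := pp_mem Primrec.fst Primrec.snd
  have h4 := Computable.computablePred (h3.computablePred.decide.comp (h2.pair Computable.id))
  refine h4.to_re.of_eq fun z => ?_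
  simp only [List.mem_map, List.mem_range, id]
  exact ⟨fun ⟨s, _, h⟩ => ⟨s, h⟩, fun ⟨s, h⟩ => ⟨s, h ▸ lt_zfun β s, h⟩⟩

theorem poly_split {V Γ : Type} (tr : V → Γ → Bool) (p : Poly V) :
    ∃ P Q : (V → ℕ) → ℕ, (∀ v, p v = (P v : ℤ) - Q v) ∧
      (RC fun w : List Γ => P fun i => val (w.map (tr i))) ∧
      RC fun w : List Γ => Q fun i => val (w.map (tr i)) := by
  induction p using Poly.induction with
  | H1 i => exact ⟨fun v => v i, fun _ => 0, fun v => by simp, RC.val _, RC.const 0⟩
  | H2 n => exact ⟨fun _ => n.toNat, fun _ => (-n).toNat, fun v => by simp, RC.const _, RC.const _⟩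
  | H3 f g hf hg =>
    obtain ⟨P, Q, h1, h2, h3⟩ := hf
    obtain ⟨P', Q', h1', h2', h3'⟩ := hg
    refine ⟨fun v => P v + Q' v, fun v => Q v + P' v, fun v => ?_, h2.add h3', h3.add h2'⟩
    rw [Poly.sub_apply, h1, h1']
    push_cast
    ring
  | H4 f g hf hg =>
    obtain ⟨P, Q, h1, h2, h3⟩ := hf
    obtain ⟨P', Q', h1', h2', h3'⟩ := hg
    refine ⟨fun v => P v * P' v + Q v * Q' v, fun v => P v * Q' v + Q v * P' v, fun v => ?_,
      (h2.mul h2').add (h3.mul h3'), (h2.mul h3').add (h3.mul h2')⟩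
    rw [Poly.mul_apply, h1, h1']
    push_cast
    ring

/-- polynomial pairing -/
def pr (x y : ℕ) : ℕ := (x + y) * (x + y) + x

theorem pr_inj {x y x' y' : ℕ} (h : pr x y = pr x' y') : x = x' ∧ y = y' := by
  unfold pr at h
  have : x + y = x' + y' := by
    rcases lt_trichotomy (x + y) (x' + y') with h1 | h1 | h1
    · nlinarith [Nat.mul_self_le_mul_self (Nat.succ_le_of_lt h1)]
    · exact h1
    · nlinarith [Nat.mul_self_le_mul_self (Nat.succ_le_of_lt h1)]
  rw [this] at h
  omega

/-- class sizes -/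
def CC (z b a a' : ℕ) : ℕ := pr z (pr b (pr a a')) + 2

theorem CC_inj {z b a a' y c d d' : ℕ} (h : CC z b a a' = CC y c d d') :
    z = y ∧ b = c ∧ a = d ∧ a' = d' := by
  unfold CC at h
  obtain ⟨h1, h2⟩ := pr_inj (Nat.add_right_cancel h)
  obtain ⟨h3, h4⟩ := pr_inj h2
  exact ⟨h1, h3, pr_inj h4⟩

theorem RC.pr {Γ : Type} {F G : List Γ → ℕ} (h : RC F) (h' : RC G) :
    RC fun w => pr (F w) (G w) := ((h.add h').mul (h.add h')).add h

theorem RC.CC {Γ : Type} {F G H K : List Γ → ℕ} (h1 : RC F) (h2 : RC G) (h3 : RC H) (h4 : RC K) :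
    RC fun w => CC (F w) (G w) (H w) (K w) := (h1.pr (h2.pr (h3.pr h4))).add (RC.const 2)

section bit
variable {Γ : Type} (lab : Γ → Option Bool) (z : Γ → Bool)

/-- the automaton reading off the bit -/
def bstep (s : Bool × Bool) (a : Γ) : Bool × Bool :=
  (if z a then (lab a).getD s.2 else s.1, if (lab a).isSome then z a else s.2)

/-- the bit of a word -/
def bit (w : List Γ) : Bool := (w.foldl (bstep lab z) (false, false)).1

theorem reg_bit : Reg fun w : List Γ => bit lab z w = true :=
  ⟨Bool × Bool, inferInstance, bstep lab z, (false, false), fun s => s.1 = true, fun _ => Iff.rfl⟩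

theorem foldl_bstep_fst : ∀ (w : List Γ) (s : Bool × Bool), (∀ a ∈ w, z a = false) →
    (w.foldl (bstep lab z) s).1 = s.1
  | [], _, _ => rfl
  | a :: w, s, h => by
    rw [List.foldl_cons, foldl_bstep_fst w _ fun b hb => h b (List.mem_cons_of_mem _ hb)]
    simp [bstep, h a List.mem_cons_self]

theorem foldl_bstep_snd : ∀ (w : List Γ) (s : Bool × Bool), (∀ a ∈ w, lab a = none) →
    (w.foldl (bstep lab z) s).2 = s.2
  | [], _, _ => rfl
  | a :: w, s, h => by
    rw [List.foldl_cons, foldl_bstep_snd w _ fun b hb => h b (List.mem_cons_of_mem _ hb)]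
    simp [bstep, h a List.mem_cons_self]

theorem foldl_split {σ : Type} (δ : σ → Γ → σ) (q : σ) (w : List Γ) (i : ℕ) (h : i < w.length) :
    w.foldl δ q = (w.drop (i + 1)).foldl δ (δ ((w.take i).foldl δ q) w[i]) := by
  conv_lhs => rw [← List.take_append_drop i w, List.foldl_append, List.drop_eq_getElem_cons h,
    List.foldl_cons]

theorem bit_eq (β : ℕ → ℕ → Bool) (x s : ℕ) (w : List Γ) (hx : x < w.length)
    (hl : ∀ k (h : k < w.length), lab w[k] = if k ≤ x then some (β x k) else none)
    (hz : val (w.map z) = zfun β s) : bit lab z w = β x s := by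
  have hz' : ∀ k (h : k < w.length), z w[k] = if k < s then β k s else decide (k = s) := by
    intro k h
    rw [← testBit_zfun, ← hz, testBit_val]
    simp [List.getD, h]
  have hs : s < w.length := by
    by_contra hs
    have := testBit_zfun β s s
    rw [← hz, testBit_val, List.getD, List.getElem?_eq_none (by simp; omega)] at this
    simp at this
  unfold bit
  rw [foldl_split _ _ w s hs, foldl_bstep_fst]
  · have e1 : z w[s] = true := by simp [hz']
    simp only [bstep, e1, if_true, hl]
    split_ifs with hsx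
    · rfl
    · have hx' : x < (w.take s).length := by simp; omega
      rw [foldl_split _ _ (w.take s) x hx', Option.getD_none, foldl_bstep_snd]
      · simp only [bstep, List.getElem_take, hl, le_refl, if_true, Option.isSome_some, hz']
        rw [if_pos (by omega)]
      · intro a ha
        obtain ⟨k, hk, rfl⟩ := List.getElem_of_mem ha
        simp only [List.getElem_drop, List.getElem_take, hl]
        rw [if_neg (by omega)]
  · intro a ha
    obtain ⟨k, hk, rfl⟩ := List.getElem_of_mem ha
    simp only [List.getElem_drop, hz']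
    rw [if_neg (by omega)]
    simp
    omega

end bit

theorem realize {V : Type} [Fintype V] (T : List Bool) (vals : V → ℕ) (ty : Fin 3) (N : ℕ) :
    ∃ w : List (Option Bool × (V → Bool) × Fin 3),
      (T.length ≤ w.length ∧ ∀ k (h : k < w.length), w[k].1 = T[k]?) ∧
      (∀ v, val (w.map fun a => a.2.1 v) = vals v) ∧ (∃ a, w.head? = some a ∧ a.2.2 = ty) ∧
      N ≤ w.length := by
  let M := T.length + N + ∑ v, vals v
  refine ⟨(List.range (M + 1)).map fun i => (T[i]?, fun v => (vals v).testBit i, ty),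
    ⟨by simp [M]; omega, fun k h => by simp⟩, fun v => ?_, ?_, by simp [M]; omega⟩
  · rw [List.map_map]
    refine val_map_testBit (lt_of_lt_of_le Nat.lt_two_pow_self
      (Nat.pow_le_pow_right (by norm_num) ?_))
    have : vals v ≤ ∑ v, vals v :=
      Finset.single_le_sum (fun _ _ => Nat.zero_le _) (Finset.mem_univ v)
    omega
  · rw [List.range_succ_eq_map]
    exact ⟨_, rfl, rfl⟩

theorem exists_reduction {β : ℕ → ℕ → Bool} (hβ : Computable₂ β) :
    ∃ f : ℕ → ℕ, Computable f ∧ ∀ x y, (∀ s, β x s = β y s) ↔ EE (f x) (f y) := by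
  classical
  obtain ⟨δ, _, p, hp⟩ := Pool.Agent.Helper844.Dio.finite_dummies
    (Pool.Agent.Helper844.Dio.dprm (re_zfun hβ))
  let V := (Unit ⊕ δ) ⊕ Fin 3
  let Γ := Option Bool × (V → Bool) × Fin 3
  let vv : List Γ → V → ℕ := fun w v => val (w.map fun a => a.2.1 v)
  obtain ⟨P, Q, hPQ, hP, hQ⟩ :=
    poly_split (Γ := Γ) (fun (i : Unit ⊕ δ) a => a.2.1 (Sum.inl i)) p
  let z0 : V := Sum.inl (Sum.inl ())
  let bt : List Γ → Bool := bit (fun a => a.1) fun a => a.2.1 z0
  let ty : List Γ → Fin 3 → Prop := fun w i => ∃ a, w.head? = some a ∧ a.2.2 = i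
  let F0 : List Γ → ℕ := fun w => CC (vv w z0) (if bt w = true then 1 else 0)
    (P fun i => vv w (Sum.inl i)) (Q fun i => vv w (Sum.inl i))
  let F1 : List Γ → ℕ := fun w => CC (vv w z0) (vv w (Sum.inr 0)) (vv w (Sum.inr 1))
    (vv w (Sum.inr 1) + 1 + vv w (Sum.inr 2))
  let F2 : List Γ → ℕ := fun w => CC (vv w z0) (vv w (Sum.inr 0))
    (vv w (Sum.inr 1) + 1 + vv w (Sum.inr 2)) (vv w (Sum.inr 1))
  let F : List Γ → ℕ := fun w => (if ty w 0 then 1 else 0) * F0 w +
    (if ty w 1 then 1 else 0) * F1 w + (if ty w 2 then 1 else 0) * F2 w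
  have hv : ∀ v, RC fun w : List Γ => vv w v := fun v => RC.val _
  have hty : ∀ i, RC fun w : List Γ => if ty w i then 1 else 0 := fun i => by
    convert RC.ind (reg_head fun a : Γ => a.2.2 = i)
  have hbt : RC fun w : List Γ => if bt w = true then 1 else 0 := by
    convert RC.ind (reg_bit (fun a : Γ => a.1) fun a => a.2.1 z0)
  have hF : RC F :=
    (((hty 0).mul ((hv _).CC hbt hP hQ)).add ((hty 1).mul ((hv _).CC (hv _) (hv _)
      (((hv _).add (RC.const 1)).add (hv _))))).add ((hty 2).mul ((hv _).CC (hv _)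
        (((hv _).add (RC.const 1)).add (hv _)) (hv _)))
  have hFty : ∀ w, (ty w 0 → F w = F0 w) ∧ (ty w 1 → F w = F1 w) ∧ (ty w 2 → F w = F2 w) := by
    intro w
    refine ⟨?_, ?_, ?_⟩ <;> rintro ⟨a, h1, h2⟩ <;> simp [F, ty, h1, h2]
  obtain ⟨Δ, _, e, t, he, ht1, ht2, ht⟩ := exists_rel hF
  obtain ⟨dm, hdm, hdm1, hdm2⟩ := exists_dom e fun b => b.1.1
  let T : ℕ → List Bool := fun x => (List.range (x + 1)).map (β x)
  have hT : Computable T := computable_range_map Computable.succ hβ
  have hTl : ∀ x, (T x).length = x + 1 := fun x => by simp [T]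
  have hTg : ∀ x k, (T x)[k]? = if k ≤ x then some (β x k) else none := by
    intro x k
    split_ifs with h
    · simp [T, Nat.lt_succ_iff.2 h]
    · exact List.getElem?_eq_none (by rw [hTl]; omega)
  let K : ℕ → List Γ → Prop := fun x w =>
    (T x).length ≤ w.length ∧ ∀ k (h : k < w.length), w[k].1 = (T x)[k]?
  let S : ℕ → Set ℕ := fun x => {n | (∃ z b a a', a ≠ a' ∧ n = CC z b a a') ∨
    ∃ s a, (∃ v : Unit ⊕ δ → ℕ, v (Sum.inl ()) = zfun β s ∧ P v = a ∧ Q v = a) ∧
      n = CC (zfun β s) (if β x s = true then 1 else 0) a a}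
  have hbit : ∀ x s w, K x w → vv w z0 = zfun β s → bt w = β x s := fun x s w h1 h2 =>
    bit_eq _ _ β x s w (by have := h1.1; rw [hTl] at this; omega)
      (fun k h => by rw [← hTg]; exact h1.2 k h) h2
  have hmain : ∀ x, Good (dm (T x), t) ∧
      (∀ n, n = 1 ∨ n ∈ S x → (classes (dm (T x), t) n).Infinite) ∧
      ∀ n, ¬ (n = 1 ∨ n ∈ S x) → classes (dm (T x), t) n = ∅ := by
    intro x
    refine ht _ (K x) (S x) ⟨_, Or.inl ⟨0, 0, 0, 1, by omega, rfl⟩⟩ ?_ ?_ ?_ ?_
    · rintro n (⟨z, b, a, a', -, rfl⟩ | ⟨s, a, -, rfl⟩) <;> exact Nat.le_add_left _ _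
    · intro w hw
      have hne : w ≠ [] := by
        rintro rfl
        have := hw.1
        rw [hTl] at this
        simp at this
      refine ⟨hne, ?_⟩
      obtain ⟨a, w', rfl⟩ := List.exists_cons_of_ne_nil hne
      have h3 : a.2.2 = 0 ∨ a.2.2 = 1 ∨ a.2.2 = 2 := by
        generalize a.2.2 = i
        decide +revert
      rcases h3 with h3 | h3 | h3
      · rw [(hFty _).1 ⟨a, rfl, h3⟩]
        by_cases hpq : (P fun i => vv (a :: w') (Sum.inl i)) = Q fun i => vv (a :: w') (Sum.inl i)
        · obtain ⟨s, hs⟩ := (hp fun i => vv (a :: w') (Sum.inl (Sum.inl i))).2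
            ⟨fun j => vv (a :: w') (Sum.inl (Sum.inr j)), by
              have : (Sum.elim (fun i => vv (a :: w') (Sum.inl (Sum.inl i)))
                  fun j => vv (a :: w') (Sum.inl (Sum.inr j)))
                  = fun i => vv (a :: w') (Sum.inl i) := by
                funext i
                cases i <;> rfl
              rw [this, hPQ, hpq, sub_self]⟩
          refine Or.inr ⟨s, _, ⟨fun i => vv (a :: w') (Sum.inl i), hs.symm, rfl, hpq.symm⟩, ?_⟩
          simp only [F0]
          rw [hbit x s _ hw hs.symm, ← hpq, hs]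
        · exact Or.inl ⟨_, _, _, _, hpq, rfl⟩
      · rw [(hFty _).2.1 ⟨a, rfl, h3⟩]
        exact Or.inl ⟨_, _, _, _, by omega, rfl⟩
      · rw [(hFty _).2.2 ⟨a, rfl, h3⟩]
        exact Or.inl ⟨_, _, _, _, by omega, rfl⟩
    · rintro n (⟨z, b, a, a', hne, rfl⟩ | ⟨s, a, ⟨v, h1, h2, h3⟩, rfl⟩) N
      · rcases lt_or_gt_of_ne hne with h | h
        · obtain ⟨w, h1, h2, h3, h4⟩ := realize (V := V) (T x)
            (Sum.elim (fun _ => z) ![b, a, a' - a - 1]) 1 N
          refine ⟨w, h1, ?_, h4⟩
          rw [(hFty w).2.1 h3]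
          have e0 : vv w z0 = z := h2 _
          have e1 : vv w (Sum.inr 0) = b := h2 _
          have e2 : vv w (Sum.inr 1) = a := h2 _
          have e3 : vv w (Sum.inr 2) = a' - a - 1 := h2 _
          simp only [F1]
          rw [e0, e1, e2, e3]
          congr 1
          omega
        · obtain ⟨w, h1, h2, h3, h4⟩ := realize (V := V) (T x)
            (Sum.elim (fun _ => z) ![b, a', a - a' - 1]) 2 N
          refine ⟨w, h1, ?_, h4⟩
          rw [(hFty w).2.2 h3]
          have e0 : vv w z0 = z := h2 _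
          have e1 : vv w (Sum.inr 0) = b := h2 _
          have e2 : vv w (Sum.inr 1) = a' := h2 _
          have e3 : vv w (Sum.inr 2) = a - a' - 1 := h2 _
          simp only [F2]
          rw [e0, e1, e2, e3]
          congr 1
          omega
      · obtain ⟨w, h4, h5, h6, h7⟩ := realize (V := V) (T x) (Sum.elim v fun _ => 0) 0 N
        refine ⟨w, h4, ?_, h7⟩
        rw [(hFty w).1 h6]
        have e1 : vv w z0 = zfun β s := (h5 z0).trans h1
        have e2 : (fun i => vv w (Sum.inl i)) = v := funext fun i => h5 _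
        simp only [F0]
        rw [hbit x s w h4 e1, e1, e2, h2, h3]
    · intro w
      rw [hdm2]
      refine exists_congr fun u => and_congr_left fun _ => ?_
      simp only [K, List.length_map, List.getElem_map]
  have hiso : ∀ x y, Iso (dm (T x), t) (dm (T y), t) ↔ ∀ n, (n = 1 ∨ n ∈ S x ↔ n = 1 ∨ n ∈ S y) := by
    intro x y
    rw [iso_iff (hmain x).1 (hmain y).1]
    refine forall_congr' fun n => ?_
    by_cases hx : n = 1 ∨ n ∈ S x <;> by_cases hy : n = 1 ∨ n ∈ S y
    · simp [hx, hy, ((hmain x).2.1 n hx).encard_eq, ((hmain y).2.1 n hy).encard_eq]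
    · simp [hx, hy, ((hmain x).2.1 n hx).encard_eq, (hmain y).2.2 n hy]
    · simp [hx, hy, ((hmain y).2.1 n hy).encard_eq, (hmain x).2.2 n hx]
    · simp [hx, hy, (hmain x).2.2 n hx, (hmain y).2.2 n hy]
  refine ⟨fun x => @Encodable.encode LP Primcodable.toEncodable (dm (T x), t),
    Computable.encode.comp ((hdm.to_comp.comp hT).pair (Computable.const t)), fun x y => ?_⟩
  obtain ⟨g1, e1⟩ := GN_encode (l := (dm (T x), t)) ⟨(hdm1 _).1, (hdm1 _).2, ht1, ht2⟩ (hmain x).1
  obtain ⟨g2, e2⟩ := GN_encode (l := (dm (T y), t)) ⟨(hdm1 _).1, (hdm1 _).2, ht1, ht2⟩ (hmain y).1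
  unfold EE
  simp only [g1, g2, e1, e2, not_true, false_and, true_and, false_or, hiso]
  constructor
  · intro H n
    simp only [S, H]
  · intro H s
    obtain ⟨τ, hτ⟩ := (hp fun _ => zfun β s).1 ⟨s, rfl⟩
    rw [hPQ, sub_eq_zero, Nat.cast_inj] at hτ
    have h1 : CC (zfun β s) (if β x s = true then 1 else 0) (P (Sum.elim (fun _ => zfun β s) τ))
        (P (Sum.elim (fun _ => zfun β s) τ)) ∈ S x :=
      Or.inr ⟨s, _, ⟨_, rfl, rfl, hτ.symm⟩, rfl⟩
    rcases (H _).1 (Or.inr h1) with h2 | ⟨z, b, a, a', hne, h2⟩ | ⟨s', a, -, h2⟩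
    · unfold CC at h2
      omega
    · obtain ⟨-, -, h3, h4⟩ := CC_inj h2
      exact absurd (h3.symm.trans h4) hne
    · obtain ⟨h3, h4, -⟩ := CC_inj h2
      have : s = s' := by
        have a1 := testBit_zfun β s
        have a2 := testBit_zfun β s'
        rw [h3] at a1
        rcases lt_trichotomy s s' with h | h | h
        · have := (a1 s').symm.trans (a2 s')
          simp [not_lt.2 h.le, h.ne'] at this
        · exact h
        · have := (a1 s).symm.trans (a2 s)
          simp [not_lt.2 h.le, h.ne'] at this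
      subst this
      revert h4
      cases β x s <;> cases β y s <;> simp

end Pool.Agent.H866Z.AE
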